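import Pool.Agent.Lib.MP_688fd0_co.SQ3.Merge

/-!
BLOCK: flat windows with the same frontier, centre and leaves, one above the other, are one flat window.
-/

set_option autoImplicit false

namespace Pool.Agent.Lib.MP_688fd0_co.SQ3

open Pool.Agent.Lib.MP_688fd0_co.OSF Pool.Agent.Lib.MP_688fd0_co.SQ2

universe u v w

/-- `U ^ n` is the left multiplication by `z`, a symmetry of `up`. -/
structure Tr {Q : Type u} [Group Q] {B : Lb.{u, v} Q} (U : Up B) (n : ℕ) (z : Q) : Prop where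
  pw : ∀ x, (U.U ^ n) x = z * x
  up : ∀ x, U.up (z * x) = U.up x

section tr

variable {Q : Type u} [Group Q] {B : Lb.{u, v} Q} {U : Up B} {n : ℕ} {z : Q}

theorem Tr.com (h : Tr U n z) (x : Q) : U.U (z * x) = z * U.U x := by
  rw [U.hU, U.hU, h.up, mul_assoc]

theorem Tr.Upow (h : Tr U n z) (k : ℕ) (x : Q) : (U.U ^ k) (z * x) = z * (U.U ^ k) x := by
  induction k with
  | zero => rfl
  | succ k ih => rw [perm_succ, ih, h.com, ← perm_succ]

theorem Tr.add (h : Tr U n z) (k : ℕ) (x : Q) : z * (U.U ^ k) x = (U.U ^ (n + k)) x := by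
  rw [U.U_pow_add, h.pw, h.Upow]

theorem Tr.im (h : Tr U n z) (k : ℕ) (L : Finset Q) : lt z (im (U.U ^ k) L) = im (U.U ^ (n + k)) L := by
  ext x
  rw [mem_lt, mem_im, mem_im]
  have e : (U.U ^ k)⁻¹ (z⁻¹ * x) = (U.U ^ (n + k))⁻¹ x := by
    rw [Equiv.Perm.inv_eq_iff_eq, inv_mul_eq_iff_eq_mul, h.add]
    simp
  rw [e]

theorem Tr.im0 (h : Tr U n z) (L : Finset Q) : SQ3.im (U.U ^ n) L = lt z L := by
  have := h.im 0 L
  rw [pow_zero, im_one, Nat.add_zero] at this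
  exact this.symm

end tr

section block

variable {Q : Type u} [Group Q] [DecidableEq Q] {B : Lb.{u, v} Q} {U : Up B}

omit [DecidableEq Q] in
theorem ltval (z : Q) (L : Finset Q) : (lt z L).val = L.val.map (z * ·) := rfl

/-- Two flat windows, one above the other. -/
theorem block2 {X Y : TW B} {n m : ℕ} {z xs : Q} (hX : Flat U X n xs) (hY : Flat U Y m xs)
    (hL : Y.L₀ = X.L₀) (h0 : Y.u₀ = X.u₀) (h1 : Y.u₁ = X.u₁) (hz : Tr U n z) :
    ∃ W : TW B, Flat U W (n + m) xs ∧ W.L₀ = X.L₀ ∧ W.u₀ = X.u₀ ∧ W.u₁ = X.u₁ ∧ W.cup = X.cup ∧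
      W.cap = Y.cap ∧ (∀ x ∈ X.tok₀, x ≠ xs → W.path x = X.path x ++ Y.path x) ∧
      W.path xs = X.path xs ++ ((Y.cup ++ X.cap) ++ Y.path xs) := by
  have hxs := TW.mem_tok₀.1 hX.xs_mem
  have htok : Y.tok₀ = X.tok₀ := by
    ext x; rw [TW.mem_tok₀, TW.mem_tok₀, hL, h0, h1]
  have c1 : X.L₁ = (Y.tr z).L₀ := by
    show X.L₁ = lt z Y.L₀
    rw [hX.top, hL, hz.im0]
  have c2 : X.w₀ = (Y.tr z).u₁ := by
    show X.w₀ = z * Y.u₁
    rw [hX.w₀, h1, hz.pw]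
  have c3 : X.w₁ ≠ (Y.tr z).u₀ := by
    show X.w₁ ≠ z * Y.u₀
    rw [hX.w₁, h0, hz.pw]
    exact fun h => hxs.2.1 (mul_left_cancel h)
  -- the jump
  have hj : ∀ x ∈ X.tok₀, x ≠ xs → TW.jump X (Y.tr z) (X.f x) = z * x ∧
      TW.jumpl X (Y.tr z) (X.f x) = [] := by
    intro x hx hne
    have hx' := TW.mem_tok₀.1 hx
    have e1 : X.f x ≠ (Y.tr z).u₀ := by
      show X.f x ≠ z * Y.u₀
      rw [hX.f x hx hne, h0, hz.pw]
      exact fun h => hx'.2.1 (mul_left_cancel h)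
    unfold TW.jump TW.jumpl
    rw [if_neg e1, if_neg e1, hX.f x hx hne, hz.pw]
    exact ⟨rfl, rfl⟩
  have hjs : TW.jump X (Y.tr z) (X.f xs) = z * xs ∧
      TW.jumpl X (Y.tr z) (X.f xs) = Y.cup ++ X.cap := by
    have e1 : X.f xs = (Y.tr z).u₀ := by
      show X.f xs = z * Y.u₀
      rw [hX.f_xs, h0, hz.pw]
    unfold TW.jump TW.jumpl
    rw [if_pos e1, if_pos e1, hX.w₁, hz.pw]
    exact ⟨rfl, rfl⟩
  refine ⟨X.comp (Y.tr z) c1 c2 c3, ⟨?_, ?_, ?_, ?_, ?_, ?_, ?_, ?_⟩, rfl, rfl, rfl, rfl, rfl, ?_, ?_⟩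
  · have := hX.pos; omega
  · show lt z Y.L₁ = im (U.U ^ (n + m)) X.L₀
    rw [hY.top, hL, hz.im]
  · rw [TW.comp_R, TW.tr_R, hX.reg, hY.reg, Finset.sum_range_add]
    congr 1
    rw [← Multiset.coe_mapAddMonoidHom, map_sum]
    refine Finset.sum_congr rfl fun i _ => ?_
    show Multiset.map (z * ·) (im (U.U ^ i) Y.L₀).val = _
    rw [← ltval, hz.im, hL]
    rfl
  · exact hX.xs_mem
  · show z * Y.w₀ = (U.U ^ (n + m)) X.u₁
    rw [hY.w₀, h1, hz.add]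
  · show z * Y.w₁ = (U.U ^ (n + m)) xs
    rw [hY.w₁, hz.add]
  · show z * Y.f (z⁻¹ * TW.jump X (Y.tr z) (X.f xs)) = (U.U ^ (n + m)) X.u₀
    rw [hjs.1, inv_mul_cancel_left, hY.f_xs, h0, hz.add]
  · intro x hx hne
    show z * Y.f (z⁻¹ * TW.jump X (Y.tr z) (X.f x)) = (U.U ^ (n + m)) x
    rw [(hj x hx hne).1, inv_mul_cancel_left, hY.f x (by rw [htok]; exact hx) hne, hz.add]
  · intro x hx hne
    show X.path x ++ (TW.jumpl X (Y.tr z) (X.f x) ++ Y.path (z⁻¹ * TW.jump X (Y.tr z) (X.f x))) = _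
    rw [(hj x hx hne).1, (hj x hx hne).2, inv_mul_cancel_left]
    rfl
  · show X.path xs ++ (TW.jumpl X (Y.tr z) (X.f xs) ++ Y.path (z⁻¹ * TW.jump X (Y.tr z) (X.f xs))) = _
    rw [hjs.1, hjs.2, inv_mul_cancel_left]

/-- A slot: a window, its height and its translation. -/
abbrev Slot (B : Lb.{u, v} Q) := TW B × ℕ × Q

/-- The path of a token through the block. -/
def bpath (x : Q) (l : List (Slot B)) : List B.L := (l.map fun p => p.1.path x).flatten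

/-- The path of the token at `xs` through the block. -/
def bpaths (xs : Q) : List (Slot B) → List B.L
  | [] => []
  | [p] => p.1.path xs
  | p :: p' :: l => p.1.path xs ++ ((p'.1.cup ++ p.1.cap) ++ bpaths xs (p' :: l))

/-- The conditions on a slot. -/
structure SlotOK (U : Up B) (L₀ : Finset Q) (u₀ u₁ xs : Q) (p : Slot B) : Prop where
  flat : Flat U p.1 p.2.1 xs
  L₀ : p.1.L₀ = L₀
  u₀ : p.1.u₀ = u₀
  u₁ : p.1.u₁ = u₁
  tr : Tr U p.2.1 p.2.2

/-- BLOCK. -/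
theorem block (L₀ : Finset Q) (u₀ u₁ xs : Q) (l : List (Slot B)) (hl : l ≠ [])
    (h : ∀ p ∈ l, SlotOK U L₀ u₀ u₁ xs p) :
    ∃ W : TW B, Flat U W (l.map fun p => p.2.1).sum xs ∧ W.L₀ = L₀ ∧ W.u₀ = u₀ ∧ W.u₁ = u₁ ∧
      W.cup = (l.head hl).1.cup ∧ W.cap = (l.getLast hl).1.cap ∧
      (∀ x ∈ W.tok₀, x ≠ xs → W.path x = bpath x l) ∧ W.path xs = bpaths xs l := by
  induction l with
  | nil => exact absurd rfl hl
  | cons p l ih =>
    obtain ⟨g1, g2, g3, g4, g5⟩ := h p (List.mem_cons_self)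
    rcases l with _ | ⟨p', l⟩
    · refine ⟨p.1, ?_, g2, g3, g4, rfl, rfl, ?_, rfl⟩
      · show Flat U p.1 (p.2.1 + 0) xs
        rw [Nat.add_zero]; exact g1
      · intro x _ _
        show _ = p.1.path x ++ []
        rw [List.append_nil]
    · obtain ⟨W, w1, w2, w3, w4, w5, w6, w7, w8⟩ := ih (List.cons_ne_nil _ _)
        (fun q hq => h q (List.mem_cons_of_mem _ hq))
      obtain ⟨W', v1, v2, v3, v4, v5, v6, v7, v8⟩ := block2 g1 w1 (by rw [w2, g2]) (by rw [w3, g3])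
        (by rw [w4, g4]) g5
      have htok : W'.tok₀ = p.1.tok₀ := by
        ext x; rw [TW.mem_tok₀, TW.mem_tok₀, v2, v3, v4]
      have htok2 : W.tok₀ = p.1.tok₀ := by
        ext x; rw [TW.mem_tok₀, TW.mem_tok₀, w2, w3, w4, g2, g3, g4]
      refine ⟨W', v1, by rw [v2, g2], by rw [v3, g3], by rw [v4, g4], v5, ?_, ?_, ?_⟩
      · rw [v6, w6, List.getLast_cons (List.cons_ne_nil _ _)]
      · intro x hx hne
        rw [v7 x (by rw [← htok]; exact hx) hne, w7 x (by rw [htok2, ← htok]; exact hx) hne]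
        rfl
      · rw [v8, w8, w5]
        rfl

/-! ### Volumes -/

theorem fin_bpath {L₀ : Finset Q} {u₀ u₁ xs : Q} {l : List (Slot B)}
    (h : ∀ p ∈ l, SlotOK U L₀ u₀ u₁ xs p) {p : Slot B} (hp : p ∈ l) {x : Q} (hx : x ∈ L₀)
    (h0 : x ≠ u₀) (h1 : x ≠ u₁) :
    B.fin x (p.1.path x) = if x = xs then p.2.2 * u₀ else p.2.2 * x := by
  obtain ⟨g1, g2, g3, g4, g5⟩ := h p hp
  rw [p.1.path_fin x (by rw [g2]; exact hx) (by rw [g3]; exact h0) (by rw [g4]; exact h1)]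
  by_cases hxs : x = xs
  · rw [if_pos hxs, hxs, g1.f_xs, g5.pw, g3]
  · rw [if_neg hxs, g1.f x (TW.mem_tok₀.2 ⟨by rw [g2]; exact hx, by rw [g3]; exact h0, by rw [g4]; exact h1⟩) hxs,
      g5.pw]

theorem vol_bpath {F : Type w} [CommRing F] (V : Vd B F) {L₀ : Finset Q} {u₀ u₁ xs : Q} (l : List (Slot B))
    (h : ∀ p ∈ l, SlotOK U L₀ u₀ u₁ xs p) (hchi : ∀ p ∈ l, V.chi p.2.2 = 1)
    {x : Q} (hx : x ∈ L₀) (h0 : x ≠ u₀) (h1 : x ≠ u₁) (hxs : x ≠ xs) :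
    V.vol x (bpath x l) = (l.map fun p => V.vol x (p.1.path x)).sum := by
  induction l with
  | nil => rfl
  | cons p l ih =>
    have e : bpath x (p :: l) = p.1.path x ++ bpath x l := rfl
    rw [e, vol_append, fin_bpath h (List.mem_cons_self) hx h0 h1, if_neg hxs, vol_tr,
      hchi p (List.mem_cons_self), one_mul, ih (fun q hq => h q (List.mem_cons_of_mem _ hq))
        (fun q hq => hchi q (List.mem_cons_of_mem _ hq))]
    rfl

/-- The volume of the turns at `xs` between the windows of a block. -/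
def ccost {F : Type w} [CommRing F] (V : Vd B F) (u₀ u₁ : Q) : List (Slot B) → F
  | [] => 0
  | [_] => 0
  | p :: p' :: l => (V.vol u₀ p'.1.cup + V.vol u₁ p.1.cap) + ccost V u₀ u₁ (p' :: l)

omit [DecidableEq Q] in
theorem ccost_congr {F : Type w} [CommRing F] (V : Vd B F) (u₀ u₁ : Q) {κ : Type*} (f g : κ → Slot B)
    (h : ∀ k, (f k).1.cup = (g k).1.cup ∧ (f k).1.cap = (g k).1.cap) (l : List κ) :
    ccost V u₀ u₁ (l.map f) = ccost V u₀ u₁ (l.map g) := by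
  induction l with
  | nil => rfl
  | cons k l ih =>
    rcases l with _ | ⟨k', l⟩
    · rfl
    · show (V.vol u₀ (f k').1.cup + V.vol u₁ (f k).1.cap) + ccost V u₀ u₁ ((k' :: l).map f) =
        (V.vol u₀ (g k').1.cup + V.vol u₁ (g k).1.cap) + ccost V u₀ u₁ ((k' :: l).map g)
      rw [ih, (h k').1, (h k).2]

theorem vol_bpaths {F : Type w} [CommRing F] (V : Vd B F) {L₀ : Finset Q} {u₀ u₁ xs : Q}
    (l : List (Slot B)) (hl : l ≠ []) (h : ∀ p ∈ l, SlotOK U L₀ u₀ u₁ xs p) (hchi : ∀ p ∈ l, V.chi p.2.2 = 1)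
    (hx : xs ∈ L₀) (h0 : xs ≠ u₀) (h1 : xs ≠ u₁) :
    V.vol xs (bpaths xs l) = (l.map fun p => V.vol xs (p.1.path xs)).sum + ccost V u₀ u₁ l := by
  induction l with
  | nil => exact absurd rfl hl
  | cons p l ih =>
    rcases l with _ | ⟨p', l⟩
    · show V.vol xs (p.1.path xs) = (V.vol xs (p.1.path xs) + 0) + 0
      rw [add_zero, add_zero]
    · have e : bpaths xs (p :: p' :: l) = p.1.path xs ++ ((p'.1.cup ++ p.1.cap) ++ bpaths xs (p' :: l)) := rfl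
      obtain ⟨g1, g2, g3, g4, g5⟩ := h p (List.mem_cons_self)
      obtain ⟨k1, k2, k3, k4, k5⟩ := h p' (List.mem_cons_of_mem _ List.mem_cons_self)
      have e1 : B.fin u₀ p'.1.cup = u₁ := by rw [← k3, ← k4]; exact p'.1.cup_fin
      have e2 : B.fin (p.2.2 * u₁) p.1.cap = p.2.2 * xs := by
        have h2 := p.1.cap_fin
        rw [g1.w₀, g1.w₁, g4, g5.pw, g5.pw] at h2
        exact h2
      have e3 : ccost V u₀ u₁ (p :: p' :: l) =
        (V.vol u₀ p'.1.cup + V.vol u₁ p.1.cap) + ccost V u₀ u₁ (p' :: l) := rfl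
      rw [e, vol_append, fin_bpath h (List.mem_cons_self) hx h0 h1, if_pos rfl, vol_append, vol_append,
        vol_tr, fin_append, fin_tr, e1, e2, vol_tr, vol_tr, hchi p (List.mem_cons_self),
        ih (List.cons_ne_nil _ _) (fun q hq => h q (List.mem_cons_of_mem _ hq))
        (fun q hq => hchi q (List.mem_cons_of_mem _ hq)), e3, List.map_cons (l := p' :: l), List.sum_cons]
      ring

/-- BLOCK with volumes. -/
theorem block_vol (L₀ : Finset Q) (u₀ u₁ xs : Q) (l : List (Slot B)) (hl : l ≠ [])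
    (h : ∀ p ∈ l, SlotOK U L₀ u₀ u₁ xs p) :
    ∃ W : TW B, Flat U W (l.map fun p => p.2.1).sum xs ∧ W.L₀ = L₀ ∧ W.u₀ = u₀ ∧ W.u₁ = u₁ ∧
      W.cup = (l.head hl).1.cup ∧ W.cap = (l.getLast hl).1.cap ∧
      ∀ {F : Type w} [CommRing F] (V : Vd B F), (∀ p ∈ l, V.chi p.2.2 = 1) → ∀ x ∈ W.tok₀,
        V.vol x (W.path x) = (l.map fun p => V.vol x (p.1.path x)).sum +
          if x = xs then ccost V u₀ u₁ l else 0 := by
  obtain ⟨W, w1, w2, w3, w4, w5, w6, w7, w8⟩ := block L₀ u₀ u₁ xs l hl h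
  refine ⟨W, w1, w2, w3, w4, w5, w6, ?_⟩
  intro F _ V hchi x hx
  have hx' := TW.mem_tok₀.1 hx
  rw [w2, w3, w4] at hx'
  by_cases hxs : x = xs
  · rw [if_pos hxs]
    subst hxs
    rw [w8, vol_bpaths V l hl h hchi hx'.1 hx'.2.1 hx'.2.2]
  · rw [if_neg hxs, add_zero, w7 x hx hxs, vol_bpath V l h hchi hx'.1 hx'.2.1 hx'.2.2 hxs]

end block

end Pool.Agent.Lib.MP_688fd0_co.SQ3
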