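import Pool.Agent.Lib.MP_688fd0_co.SQ3.Merge2
import Pool.Agent.Lib.MP_688fd0_co.SQ3.Block

/-!
BLOCKS with classes: flat windows along a tree of lines, several of them (the slots) for each path of length two of the
tree, each slot in two versions: one tour, and the volumes of its classes for all choices of the versions.
-/

set_option autoImplicit false

namespace Pool.Agent.Lib.MP_688fd0_co.SQ3

open Pool.Agent.Lib.MP_688fd0_co.OSF Pool.Agent.Lib.MP_688fd0_co.SQ2

universe u v w

variable {Q : Type u} [Group Q] [DecidableEq Q] {B : Lb.{u, v} Q}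

/-- BLOCKS. -/
theorem blocks2 [Fintype Q] (U : Up B) {Λ : Type w} (ln : Q → Λ) (d : Q → Bool) {K : Type} [DecidableEq K]
    (kc : Q → K) {ι : Type} [Fintype ι] [DecidableEq ι]
    (rk : ι → ℕ) (hln : ∀ x, ln (U.U x) = ln x) (hln' : ∀ x y, ln x = ln y → ∃ m : ℕ, y = (U.U ^ m) x)
    (hsurj : Function.Surjective ln) (hd : ∀ x, d (U.U x) = d x) (hkc : ∀ x, kc (U.U x) = kc x)
    {κ : Type} [Fintype κ] (π : κ → ι) (hπ : Function.Surjective π) (h : κ → ℕ) (X X' : κ → TW B)
    (L₀ : ι → Finset Q) (u₀ u₁ xs : ι → Q)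
    (hV : ∀ k, Ver U (X k) (X' k) (h k) (xs (π k)))
    (hX : ∀ k, (X k).L₀ = L₀ (π k) ∧ (X k).u₀ = u₀ (π k) ∧ (X k).u₁ = u₁ (π k))
    (g : κ → Q) (hg : ∀ k, Tr U (h k) (g k))
    (hdir : ∀ i, d (u₀ i) = !d (u₁ i) ∧ d (xs i) = !d (u₁ i))
    (hP : PosU U.U L₀ (fun i => ∑ k with π k = i, h k) u₁ u₀ xs)
    (hT : TreeK ln kc u₁ u₀ xs rk) :
    ∃ T : TourS B K, (∀ x, ∃ y, T.cls x = kc y) ∧ ∀ c : κ → Bool, ∃ T' : TourS B K, (∀ x, ∃ y, T'.cls x = kc y) ∧
      ∀ (R : Type) [CommRing R] (V : Vd B R), (∀ k, V.chi (g k) = 1) → ∀ γ : K,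
      T'.vol V γ = T.vol V γ + ∑ k, if c k then dvolw V (wcl kc d γ) (X k) (X' k) else 0 := by
  classical
  -- the slots of a path
  let sl : (κ → Bool) → ι → List (Slot B) := fun c i =>
    (Finset.univ.filter fun k => π k = i).toList.map fun k => (if c k then X' k else X k, h k, g k)
  have hslne : ∀ c i, sl c i ≠ [] := by
    intro c i h0
    obtain ⟨k, hk⟩ := hπ i
    have h1 : k ∈ (Finset.univ.filter fun k => π k = i).toList := by
      rw [Finset.mem_toList, Finset.mem_filter]
      exact ⟨Finset.mem_univ _, hk⟩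
    have h2 := List.mem_map_of_mem (f := fun k => ((if c k then X' k else X k, h k, g k) : Slot B)) h1
    have h3 : sl c i = (Finset.univ.filter fun k => π k = i).toList.map
      fun k => (if c k then X' k else X k, h k, g k) := rfl
    rw [← h3, h0] at h2
    exact absurd h2 List.not_mem_nil
  have hsl : ∀ c i, ∀ p ∈ sl c i, SlotOK U (L₀ i) (u₀ i) (u₁ i) (xs i) p := by
    intro c i p hp
    obtain ⟨k, hk, rfl⟩ := List.mem_map.1 hp
    rw [Finset.mem_toList, Finset.mem_filter] at hk
    obtain ⟨-, rfl⟩ := hk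
    obtain ⟨g1, g2, g3⟩ := hX k
    refine ⟨?_, ?_, ?_, ?_, hg k⟩
    · show Flat U (if c k then X' k else X k) (h k) _
      by_cases hc : c k
      · rw [if_pos hc]; exact (hV k).flat'
      · rw [if_neg hc]; exact (hV k).flat
    · show (if c k then X' k else X k).L₀ = _
      by_cases hc : c k
      · rw [if_pos hc, (hV k).L₀]; exact g1
      · rw [if_neg hc]; exact g1
    · show (if c k then X' k else X k).u₀ = _
      by_cases hc : c k
      · rw [if_pos hc, (hV k).u₀]; exact g2
      · rw [if_neg hc]; exact g2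
    · show (if c k then X' k else X k).u₁ = _
      by_cases hc : c k
      · rw [if_pos hc, (hV k).u₁]; exact g3
      · rw [if_neg hc]; exact g3
  let c0 : κ → Bool := fun _ => false
  have hf : ∀ c : κ → Bool, ∀ k, ((if c k then X' k else X k, h k, g k) : Slot B).1.cup =
      ((if c0 k then X' k else X k, h k, g k) : Slot B).1.cup ∧
      ((if c k then X' k else X k, h k, g k) : Slot B).1.cap =
      ((if c0 k then X' k else X k, h k, g k) : Slot B).1.cap := by
    intro c k
    have e4 : (if c0 k then X' k else X k) = X k := if_neg (by simp [c0])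
    show (if c k then X' k else X k).cup = (if c0 k then X' k else X k).cup ∧
      (if c k then X' k else X k).cap = (if c0 k then X' k else X k).cap
    rw [e4]
    by_cases hc : c k
    · rw [if_pos hc]; exact ⟨(hV k).cup, (hV k).cap⟩
    · rw [if_neg hc]; exact ⟨rfl, rfl⟩
  have hhead : ∀ c i, ((sl c i).head (hslne c i)).1.cup = ((sl c0 i).head (hslne c0 i)).1.cup := by
    intro c i
    have e : ∀ c, (sl c i).head (hslne c i) = (if c ((Finset.univ.filter fun k => π k = i).toList.head
        (fun h0 => hslne c i (by show List.map _ _ = []; rw [h0]; rfl))) then X' _ else X _, h _, g _) := fun c =>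
      List.head_map ..
    rw [e c, e c0]
    exact (hf c _).1
  have hlast : ∀ c i, ((sl c i).getLast (hslne c i)).1.cap = ((sl c0 i).getLast (hslne c0 i)).1.cap := by
    intro c i
    have e : ∀ c, (sl c i).getLast (hslne c i) = (if c ((Finset.univ.filter fun k => π k = i).toList.getLast
        (fun h0 => hslne c i (by show List.map _ _ = []; rw [h0]; rfl))) then X' _ else X _, h _, g _) := fun c =>
      List.getLast_map ..
    rw [e c, e c0]
    exact (hf c _).2
  have hsum : ∀ c i, ((sl c i).map fun p => p.2.1).sum = ∑ k with π k = i, h k := by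
    intro c i
    show (((Finset.univ.filter fun k => π k = i).toList.map _).map fun p : Slot B => p.2.1).sum = _
    rw [List.map_map, Finset.sum_map_toList]
    rfl
  choose W w1 w2 w3 w4 w5 w6 w7 using fun c i =>
    block_vol.{u, v, 0} (L₀ i) (u₀ i) (u₁ i) (xs i) (sl c i) (hslne c i) (hsl c i)
  have hW : ∀ c i, Flat U (W c i) (∑ k with π k = i, h k) (xs i) := fun c i => by
    rw [← hsum c i]; exact w1 c i
  have hWL : ∀ c, (fun i => (W c i).L₀) = L₀ := fun c => funext fun i => w2 c i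
  have hWu₀ : ∀ c, (fun i => (W c i).u₀) = u₀ := fun c => funext fun i => w3 c i
  have hWu₁ : ∀ c, (fun i => (W c i).u₁) = u₁ := fun c => funext fun i => w4 c i
  have hM : ∀ c, ∃ T : TourS B K, (∀ x, ∃ y, T.cls x = kc y) ∧ ∀ (R : Type) [CommRing R] (V : Vd B R) (γ : K),
      T.vol V γ = bvol V U d kc L₀ (fun i => ∑ k with π k = i, h k) γ + ∑ i, wvol V d kc γ (W c i) := by
    intro c
    have := merge2 U ln d kc (W c) (fun i => ∑ k with π k = i, h k) xs rk hln hln' hsurj hd hkc
      (hW c) (fun i => by rw [w3, w4]; exact hdir i) (by rw [hWL, hWu₀, hWu₁]; exact hP)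
      (by rw [hWu₀, hWu₁]; exact hT)
    rw [hWL] at this
    exact this
  obtain ⟨T, hTc, hT0⟩ := hM c0
  refine ⟨T, hTc, fun c => ?_⟩
  obtain ⟨T', hTc', hT'⟩ := hM c
  refine ⟨T', hTc', fun R _ V hchi γ => ?_⟩
  rw [hT' R V γ, hT0 R V γ, add_assoc]
  congr 1
  have hchi' : ∀ c i, ∀ p ∈ sl c i, V.chi p.2.2 = 1 := by
    intro c i p hp
    obtain ⟨k, hk, rfl⟩ := List.mem_map.1 hp
    exact hchi k
  have hcc : ∀ c i, ccost V (u₀ i) (u₁ i) (sl c i) = ccost V (u₀ i) (u₁ i) (sl c0 i) := fun c i =>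
    ccost_congr V (u₀ i) (u₁ i) (fun k => (if c k then X' k else X k, h k, g k))
      (fun k => (if c0 k then X' k else X k, h k, g k)) (hf c) _
  have htok : ∀ c i, (W c i).tok₀ = (W c0 i).tok₀ := fun c i => by
    ext x; rw [TW.mem_tok₀, TW.mem_tok₀, w2, w2, w3, w3, w4, w4]
  have hvol : ∀ i, ∀ x ∈ (W c0 i).tok₀, V.vol x ((W c i).path x) = V.vol x ((W c0 i).path x) +
      ∑ k with π k = i, if c k then V.vol x ((X' k).path x) - V.vol x ((X k).path x) else 0 := by
    intro i x hx
    have e1 := w7 c i V (hchi' c i) x (by rw [htok c i]; exact hx)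
    have e2 := w7 c0 i V (hchi' c0 i) x hx
    rw [← sub_eq_iff_eq_add', e1, e2, hcc c i]
    have e3 : ∀ c : κ → Bool, ((sl c i).map fun p => V.vol x (p.1.path x)).sum =
        ∑ k with π k = i, V.vol x ((if c k then X' k else X k).path x) := by
      intro c
      show (((Finset.univ.filter fun k => π k = i).toList.map _).map _).sum = _
      rw [List.map_map, Finset.sum_map_toList]
      rfl
    rw [e3, e3, add_sub_add_right_eq_sub, ← Finset.sum_sub_distrib]
    refine Finset.sum_congr rfl fun k _ => ?_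
    have e4 : (if c0 k then X' k else X k) = X k := if_neg (by simp [c0])
    rw [e4]
    by_cases hc : c k
    · rw [if_pos hc, if_pos hc]
    · rw [if_neg hc, if_neg hc, sub_self]
  have hfib : ∀ g : κ → R, ∑ k, g k = ∑ i, ∑ k with π k = i, g k := fun g =>
    (Finset.sum_fiberwise Finset.univ π g).symm
  rw [hfib, ← Finset.sum_add_distrib]
  refine Finset.sum_congr rfl fun i _ => ?_
  unfold wvol
  have q1 : (W c i).cup = (W c0 i).cup := by rw [w5, w5, hhead]
  have q2 : (W c i).cap = (W c0 i).cap := by rw [w6, w6, hlast]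
  have q3 : (W c i).w₀ = (W c0 i).w₀ := by rw [(hW c i).w₀, (hW c0 i).w₀, w4, w4]
  have q4 : (W c i).u₀ = (W c0 i).u₀ := by rw [w3, w3]
  have q5 : (W c i).u₁ = (W c0 i).u₁ := by rw [w4, w4]
  rw [q1, q2, q3, q4, q5, htok, add_right_comm]
  congr 1
  have e5 : ∑ x ∈ (W c0 i).tok₀, (wcl kc d γ x : R) * V.vol x ((W c i).path x) =
      ∑ x ∈ (W c0 i).tok₀, wcl kc d γ x * V.vol x ((W c0 i).path x) +
      ∑ x ∈ (W c0 i).tok₀, ∑ k with π k = i, wcl kc d γ x *
        (if c k then V.vol x ((X' k).path x) - V.vol x ((X k).path x) else 0) := by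
    rw [← Finset.sum_add_distrib]
    refine Finset.sum_congr rfl fun x hx => ?_
    rw [hvol i x hx, mul_add, Finset.mul_sum]
  rw [e5, Finset.sum_comm]
  congr 1
  refine Finset.sum_congr rfl fun k hk => ?_
  obtain ⟨-, rfl⟩ := Finset.mem_filter.1 hk
  have e6 : (X k).tok₀ = (W c0 (π k)).tok₀ := by
    ext x
    obtain ⟨g1, g2, g3⟩ := hX k
    rw [TW.mem_tok₀, TW.mem_tok₀, w2, w3, w4, g1, g2, g3]
  by_cases hc : c k
  · rw [if_pos hc]
    unfold dvolw
    rw [e6]
    refine Finset.sum_congr rfl fun x _ => ?_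
    rw [if_pos hc]
  · rw [if_neg hc]
    refine Finset.sum_eq_zero fun x _ => ?_
    rw [if_neg hc, mul_zero]

end Pool.Agent.Lib.MP_688fd0_co.SQ3
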