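import Pool.Agent.Lib.MP_688fd0_co.SQ3.Flat

/-!
Tours with classes (one or two cycles), the weights of the classes, positions of windows and trees of lines.
-/

set_option autoImplicit false

namespace Pool.Agent.Lib.MP_688fd0_co.SQ3

open Pool.Agent.Lib.MP_688fd0_co.OSF Pool.Agent.Lib.MP_688fd0_co.SQ2

universe u v w

/-- A permutation `x ↦ x q(lab x)`; its cycles are the classes of `cls`. -/
structure TourS {Q : Type u} [Group Q] (B : Lb.{u, v} Q) (κ : Type w) where
  lab : Q → B.L
  cls : Q → κ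
  bij : Function.Bijective fun x => x * B.q (lab x)
  step : ∀ x, cls (x * B.q (lab x)) = cls x
  trans : ∀ x y, cls x = cls y → ∃ n : ℕ, (fun z => z * B.q (lab z))^[n] x = y

/-- The volume of a class. -/
noncomputable def TourS.vol {Q : Type u} [Group Q] [Fintype Q] {B : Lb.{u, v} Q} {κ : Type w} [DecidableEq κ]
    (T : TourS B κ) {R : Type*} [CommRing R] (V : Vd B R) (γ : κ) : R :=
  ∑ x, if T.cls x = γ then V.chi x * V.n (T.lab x) else 0

/-- The weight of the class `γ`: the direction on its lines, `0` on the other lines. -/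
def wcl {Q : Type u} {κ : Type w} [DecidableEq κ] {R : Type*} [CommRing R] (k : Q → κ) (d : Q → Bool) (γ : κ)
    (x : Q) : R :=
  if k x = γ then (if d x then 1 else -1) else 0

/-- Positions of three-line windows on the orbits of `σ`: window `i` consists of the segments
`y, σ y, .., σ ^ (n i) y`, `y ∈ L i`, and its three special strands are those of `c i` (centre), `l i`, `m i`. -/
structure PosU {Q : Type u} (σ : Equiv.Perm Q) {ι : Type v} (L : ι → Finset Q) (n : ι → ℕ) (c l m : ι → Q) :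
    Prop where
  pos : ∀ i, 0 < n i
  hc : ∀ i, c i ∈ L i
  hl : ∀ i, l i ∈ L i
  hm : ∀ i, m i ∈ L i
  disj : ∀ i j x y s t, x ∈ L i → y ∈ L j → s ≤ n i → t ≤ n j → (σ ^ s) x = (σ ^ t) y → i = j ∧ x = y ∧ s = t

/-- The tree condition: `ln x` is the line of `x`, `k x` its class; the windows can be removed one after the other, and
each time two of the three lines do not occur later. The lines of every class are connected. -/
structure TreeK {Q : Type u} {Λ : Type w} {κ : Type*} (ln : Q → Λ) (k : Q → κ) {ι : Type v} (c l m : ι → Q)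
    (rk : ι → ℕ) : Prop where
  cl : ∀ i, ln (c i) ≠ ln (l i)
  cm : ∀ i, ln (c i) ≠ ln (m i)
  lm : ∀ i, ln (l i) ≠ ln (m i)
  kl : ∀ i, k (l i) = k (c i)
  km : ∀ i, k (m i) = k (c i)
  two : ∀ i, ∃ p : Q → Prop, ((p (c i) ∧ p (l i)) ∨ (p (c i) ∧ p (m i)) ∨ (p (l i) ∧ p (m i))) ∧
    ∀ x, p x → ∀ j, j ≠ i → (ln x = ln (c j) ∨ ln x = ln (l j) ∨ ln x = ln (m j)) → rk j < rk i
  cov : ∀ ρ : Λ → Λ → Prop, Equivalence ρ → (∀ i, ρ (ln (c i)) (ln (l i)) ∧ ρ (ln (c i)) (ln (m i))) →
    ∀ x y, k x = k y → ρ (ln x) (ln y)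

end Pool.Agent.Lib.MP_688fd0_co.SQ3
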