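import Pool.Agent.Lib.MP_688fd0_co.SQ2.RewireP

/-!
Directed rewiring of a permutation `x ↦ d x (lab x)` whose cycles are classes: the strands stay in their classes.
-/

set_option autoImplicit false

namespace Pool.Agent.Lib.MP_688fd0_co.SQ3

open Pool.Agent.MP_688fd0_co.OSF.H59 Pool.Agent.Lib.MP_688fd0_co.SQ2

variable {Q L : Type*}

theorem wt_congr {M : Type*} [AddCommMonoid M] (d : Q → L → Q) (c c' : Q → L → M) (x : Q) (w : List L)
    (h : ∀ y ∈ src d x w, ∀ g, c y g = c' y g) : wt d c x w = wt d c' x w := by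
  induction w generalizing x with
  | nil => rfl
  | cons a w ih =>
    show c x a + wt d c (d x a) w = c' x a + wt d c' (d x a) w
    rw [h x List.mem_cons_self a, ih (d x a) fun y hy g => h y (List.mem_cons_of_mem _ hy) g]

theorem mem_src_self (d : Q → L → Q) (x : Q) {w : List L} (h : w ≠ []) : x ∈ src d x w := by
  rcases w with _ | ⟨a, w⟩
  · exact absurd rfl h
  · exact List.mem_cons_self

/-- REWIRING LEMMA with classes. -/
theorem rewireK [Fintype Q] [DecidableEq Q] {κ : Type*} {d : Q → L → Q} {lab : Q → L} (k : Q → κ)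
    (hb : Function.Bijective (fun z => d z (lab z))) (hk : ∀ x, k (d x (lab x)) = k x)
    (S : List (Q × List L × List L)) (hne : ∀ s ∈ S, s.2.1 ≠ []) (hne' : ∀ s ∈ S, s.2.2 ≠ [])
    (hold : ∀ s ∈ S, Reads d lab s.1 s.2.1)
    (hends : (S.map fun s => fin d s.1 s.2.1).Perm (S.map fun s => fin d s.1 s.2.2))
    (hnd : (oldS d S).Nodup) (hperm : (oldS d S).Perm (newS d S))
    (hkS : ∀ s ∈ S, k (fin d s.1 s.2.2) = k s.1) (hend : ∀ s ∈ S, fin d s.1 s.2.2 ∉ oldS d S)
    (hconn : ∀ r : Q → Q → Prop, Equivalence r → (∀ x, x ∉ oldS d S → r x (d x (lab x))) →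
      (∀ s ∈ S, r s.1 (fin d s.1 s.2.2)) →
      ∀ x y, (x ∉ oldS d S ∨ ∃ s ∈ S, x = s.1) → (y ∉ oldS d S ∨ ∃ s ∈ S, y = s.1) → k x = k y → r x y) :
    ∃ (lab' : Q → L) (k' : Q → κ), Function.Bijective (fun z => d z (lab' z)) ∧
      (∀ x, k' (d x (lab' x)) = k' x) ∧
      (∀ x y, k' x = k' y → ∃ n : ℕ, (fun z => d z (lab' z))^[n] x = y) ∧
      (∀ x, x ∉ oldS d S → lab' x = lab x) ∧ (∀ x, x ∉ oldS d S → k' x = k x) ∧
      (∀ s ∈ S, ∀ x ∈ src d s.1 s.2.2, k' x = k s.1) ∧ (∀ s ∈ S, Reads d lab' s.1 s.2.2) ∧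
      ∀ {M : Type*} [AddCommMonoid M] (c : κ → Q → L → M),
        ∑ x, c (k' x) x (lab' x) + (S.map fun s => wt d (c (k s.1)) s.1 s.2.1).sum =
          ∑ x, c (k x) x (lab x) + (S.map fun s => wt d (c (k s.1)) s.1 s.2.2).sum := by
  classical
  obtain ⟨lab', h1, h2, h3, -⟩ := rewireP.{_, _, 0} hb S hne hne' hold hends hnd hperm
  have hnd' : (newS d S).Nodup := hperm.nodup_iff.1 hnd
  obtain ⟨-, hndb⟩ := List.nodup_flatMap.1 hnd'
  have hdis : ∀ s ∈ S, ∀ s' ∈ S, ∀ x, x ∈ src d s.1 s.2.2 → x ∈ src d s'.1 s'.2.2 → s = s' := by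
    intro s hs s' hs' x hx hx'
    by_contra hss
    have hsym : Std.Symm (Function.onFun List.Disjoint
        fun s : Q × List L × List L => src d s.1 s.2.2) := ⟨fun a b h => h.symm⟩
    exact List.Pairwise.forall hndb hs hs' hss hx hx'
  let k' : Q → κ := fun x => if h : ∃ s, s ∈ S ∧ x ∈ src d s.1 s.2.2 then k h.choose.1 else k x
  have hk1 : ∀ s ∈ S, ∀ x ∈ src d s.1 s.2.2, k' x = k s.1 := by
    intro s hs x hx
    have hex : ∃ s, s ∈ S ∧ x ∈ src d s.1 s.2.2 := ⟨s, hs, hx⟩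
    show (if h : ∃ s, s ∈ S ∧ x ∈ src d s.1 s.2.2 then k h.choose.1 else k x) = _
    rw [dif_pos hex, hdis _ hex.choose_spec.1 s hs x hex.choose_spec.2 hx]
  have hk2 : ∀ x, x ∉ oldS d S → k' x = k x := by
    intro x hx
    show (if h : ∃ s, s ∈ S ∧ x ∈ src d s.1 s.2.2 then k h.choose.1 else k x) = _
    rw [dif_neg]
    rintro ⟨s, hs, hxs⟩
    exact hx (hperm.mem_iff.2 (List.mem_flatMap.2 ⟨s, hs, hxs⟩))
  have hgood : ∀ x, (x ∉ oldS d S ∨ ∃ s ∈ S, x = s.1) → k' x = k x := by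
    rintro x (hx | ⟨s, hs, rfl⟩)
    · exact hk2 x hx
    · exact hk1 s hs _ (mem_src_self d _ (hne' s hs))
  have hstep : ∀ x, k' (d x (lab' x)) = k' x := by
    intro x
    by_cases hx : x ∈ oldS d S
    · obtain ⟨s, hs, hxs⟩ := List.mem_flatMap.1 (hperm.mem_iff.1 hx)
      obtain ⟨t, ht, hxt⟩ := (h3 s hs).mem_src hxs
      have e1 : d x (lab' x) = (fun z => d z (lab' z))^[t + 1] s.1 := by
        rw [Function.iterate_succ_apply', ← hxt]
      rw [hk1 s hs x hxs]
      by_cases hl : t + 1 < s.2.2.length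
      · exact hk1 s hs _ (by rw [e1]; exact (h3 s hs).iterate_mem hl)
      · have e2 : d x (lab' x) = fin d s.1 s.2.2 := by
          rw [(h3 s hs).fin_eq, e1]; congr 2; omega
        rw [e2, hk2 _ (hend s hs), hkS s hs]
    · rw [h2 x hx, hk2 x hx, ← hk x]
      refine hgood _ ?_
      by_cases hy : d x (lab x) ∈ oldS d S
      · right
        obtain ⟨s, hs, hys⟩ := List.mem_flatMap.1 hy
        obtain ⟨t, ht, hyt⟩ := (hold s hs).mem_src hys
        rcases t with _ | t
        · exact ⟨s, hs, hyt⟩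
        · exfalso
          rw [Function.iterate_succ_apply'] at hyt
          have h5 : x = (fun z => d z (lab z))^[t] s.1 := hb.1 hyt
          apply hx
          rw [h5]
          exact List.mem_flatMap.2 ⟨s, hs, (hold s hs).iterate_mem (by omega)⟩
      · exact Or.inl hy
  refine ⟨lab', k', h1, hstep, ?_, h2, hk2, hk1, h3, ?_⟩
  · have he := orbit_equiv h1
    have hit : ∀ n x, k' ((fun z => d z (lab' z))^[n] x) = k' x := by
      intro n
      induction n with
      | zero => intro x; rfl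
      | succ n ih => intro x; rw [Function.iterate_succ_apply', hstep, ih]
    have hc := hconn _ he (fun x hx => ⟨1, by rw [Function.iterate_one, h2 x hx]⟩)
      (fun s hs => ⟨s.2.2.length, by rw [(h3 s hs).fin_eq]⟩)
    have hrep : ∀ x, ∃ y, (y ∉ oldS d S ∨ ∃ s ∈ S, y = s.1) ∧ ∃ n : ℕ, (fun z => d z (lab' z))^[n] y = x := by
      intro x
      by_cases hx : x ∈ oldS d S
      · obtain ⟨s, hs, hxs⟩ := List.mem_flatMap.1 (hperm.mem_iff.1 hx)
        obtain ⟨t, _, ht⟩ := (h3 s hs).mem_src hxs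
        exact ⟨s.1, Or.inr ⟨s, hs, rfl⟩, t, ht.symm⟩
      · exact ⟨x, Or.inl hx, 0, rfl⟩
    intro x y hxy
    obtain ⟨x', hx', hxx'⟩ := hrep x
    obtain ⟨y', hy', hyy'⟩ := hrep y
    have e1 : k x' = k y' := by
      obtain ⟨n, hn⟩ := hxx'
      obtain ⟨m, hm⟩ := hyy'
      rw [← hgood x' hx', ← hgood y' hy', ← hit n x', hn, ← hit m y', hm, hxy]
    exact he.trans (he.symm hxx') (he.trans (hc x' y' hx' hy' e1) hyy')
  · intro M _ c
    have hkold : ∀ s ∈ S, ∀ x ∈ src d s.1 s.2.1, k x = k s.1 := by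
      intro s hs x hx
      obtain ⟨t, _, ht⟩ := (hold s hs).mem_src hx
      rw [ht]
      clear ht hx
      induction t with
      | zero => rfl
      | succ t ih => rw [Function.iterate_succ_apply', hk, ih (by omega)]
    have g1 := sum_reads (fun x g => c (k x) x g) lab (oldD d S) (by rw [map_oldD]; exact hnd) (by
      intro p hp
      obtain ⟨s, hsS, h⟩ := List.mem_flatMap.1 hp
      exact hold s hsS p h)
    have g2 := sum_reads (fun x g => c (k' x) x g) lab' (newD d S) (by rw [map_newD]; exact hnd') (by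
      intro p hp
      obtain ⟨s, hsS, h⟩ := List.mem_flatMap.1 hp
      exact h3 s hsS p h)
    rw [map_oldD] at g1
    rw [map_newD, ← List.toFinset_eq_of_perm _ _ hperm] at g2
    have e1 := sum_D (fun x g => c (k x) x g) _ S (fun s => darts d s.1 s.2.1)
      (fun s => wt d (fun x g => c (k x) x g) s.1 s.2.1) (fun s => wt_eq_sum d _ s.1 s.2.1)
    have e2 := sum_D (fun x g => c (k' x) x g) _ S (fun s => darts d s.1 s.2.2)
      (fun s => wt d (fun x g => c (k' x) x g) s.1 s.2.2) (fun s => wt_eq_sum d _ s.1 s.2.2)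
    have f1 : (S.map fun s => wt d (fun x g => c (k x) x g) s.1 s.2.1) =
        S.map fun s => wt d (c (k s.1)) s.1 s.2.1 := by
      refine List.map_congr_left fun s hs => ?_
      refine wt_congr d _ _ _ _ fun y hy g => ?_
      rw [hkold s hs y hy]
    have f2 : (S.map fun s => wt d (fun x g => c (k' x) x g) s.1 s.2.2) =
        S.map fun s => wt d (c (k s.1)) s.1 s.2.2 := by
      refine List.map_congr_left fun s hs => ?_
      refine wt_congr d _ _ _ _ fun y hy g => ?_
      rw [hk1 s hs y hy]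
    rw [f1] at e1
    rw [f2] at e2
    have h1' : ∑ x ∈ (oldS d S).toFinset, c (k x) x (lab x) =
        (S.map fun s => wt d (c (k s.1)) s.1 s.2.1).sum := g1.trans e1
    have h2' : ∑ x ∈ (oldS d S).toFinset, c (k' x) x (lab' x) =
        (S.map fun s => wt d (c (k s.1)) s.1 s.2.2).sum := g2.trans e2
    have h3' : ∑ x ∈ (oldS d S).toFinsetᶜ, c (k' x) x (lab' x) =
        ∑ x ∈ (oldS d S).toFinsetᶜ, c (k x) x (lab x) := by
      apply Finset.sum_congr rfl
      intro x hx
      have hx' : x ∉ oldS d S := by simpa using hx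
      rw [h2 x hx', hk2 x hx']
    rw [← Finset.sum_add_sum_compl (oldS d S).toFinset (fun x => c (k' x) x (lab' x)),
      ← Finset.sum_add_sum_compl (oldS d S).toFinset (fun x => c (k x) x (lab x)), h3', h1', h2']
    abel

end Pool.Agent.Lib.MP_688fd0_co.SQ3
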