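import Pool.Agent.Lib.MP_688fd0_co.SQ3.Cls
import Pool.Agent.Lib.MP_688fd0_co.SQ3.Rewire

/-!
Connectedness: the orbits of a permutation `σ` with three-line windows along a tree, with classes.
-/

set_option autoImplicit false

namespace Pool.Agent.Lib.MP_688fd0_co.SQ3

open Pool.Agent.Lib.MP_688fd0_co.SQ2

universe u v w

section

variable {Q : Type u} {σ : Equiv.Perm Q} {ι : Type v} {L : ι → Finset Q} {n : ι → ℕ} {c l m : ι → Q}

theorem perm_succ (σ : Equiv.Perm Q) (s : ℕ) (y : Q) : (σ ^ (s + 1)) y = σ ((σ ^ s) y) := by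
  rw [pow_succ']; rfl

theorem perm_zero (σ : Equiv.Perm Q) (y : Q) : (σ ^ 0) y = y := rfl

/-- `x` is the vertex number `s < n i` of the strand of `y` in window `i`. -/
def InS (σ : Equiv.Perm Q) (L : ι → Finset Q) (n : ι → ℕ) (x : Q) (i : ι) (y : Q) (s : ℕ) : Prop :=
  y ∈ L i ∧ s < n i ∧ x = (σ ^ s) y

open Classical in
/-- The bottom vertex of the strand of `x`, or `x`. -/
noncomputable def bas (σ : Equiv.Perm Q) (L : ι → Finset Q) (n : ι → ℕ) (x : Q) : Q :=
  if h : ∃ y, ∃ i s, InS σ L n x i y s then h.choose else x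

theorem bas_eq (hP : PosU σ L n c l m) {x : Q} {i : ι} {y : Q} {s : ℕ} (h : InS σ L n x i y s) :
    bas σ L n x = y := by
  have hex : ∃ y, ∃ i s, InS σ L n x i y s := ⟨y, i, s, h⟩
  unfold bas
  rw [dif_pos hex]
  obtain ⟨j, t, h2⟩ := hex.choose_spec
  have := hP.disj j i _ y t s h2.1 h.1 h2.2.1.le h.2.1.le (by rw [← h2.2.2, h.2.2])
  exact this.2.1

theorem bas_self {x : Q} (h : ∀ i y s, ¬ InS σ L n x i y s) : bas σ L n x = x := by
  unfold bas
  rw [dif_neg]
  rintro ⟨y, i, s, h1⟩
  exact h i y s h1

theorem bas_step (hP : PosU σ L n c l m) (r : Q → Q → Prop) (hr : Equivalence r)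
    (out : ∀ x, (∀ i y s, ¬ InS σ L n x i y s) → r x (σ x)) (z : Q)
    (ht : ∀ i y, y ∈ L i → z = (σ ^ (n i - 1)) y → r y ((σ ^ n i) y)) :
    r (bas σ L n z) (bas σ L n (σ z)) := by
  by_cases h : ∃ i y s, InS σ L n z i y s
  · obtain ⟨i, y, s, h1⟩ := h
    rw [bas_eq hP h1]
    have hz : σ z = (σ ^ (s + 1)) y := by rw [h1.2.2, perm_succ]
    by_cases hs : s + 1 < n i
    · rw [bas_eq hP (x := σ z) (i := i) (y := y) (s := s + 1) ⟨h1.1, hs, hz⟩]
      exact hr.refl _
    · have hs' : s + 1 = n i := by have := h1.2.1; omega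
      rw [bas_self (x := σ z)]
      · rw [hz, hs']
        refine ht i y h1.1 ?_
        rw [h1.2.2]; congr 2; omega
      · intro j y' s' h2
        have := hP.disj i j y y' (s + 1) s' h1.1 h2.1 (by omega) h2.2.1.le (by rw [← hz, h2.2.2])
        obtain ⟨rfl, _, h3⟩ := this
        have := h2.2.1
        omega
  · have h0 : ∀ i y s, ¬ InS σ L n z i y s := fun i y s h1 => h ⟨i, y, s, h1⟩
    rw [bas_self h0]
    by_cases h2 : ∃ i y s, InS σ L n (σ z) i y s
    · obtain ⟨i, y, s, h3⟩ := h2
      rw [bas_eq hP h3]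
      have hs : s = 0 := by
        by_contra hs
        apply h0 i y (s - 1)
        refine ⟨h3.1, by have := h3.2.1; omega, ?_⟩
        have e := h3.2.2
        rw [show s = (s - 1) + 1 by omega, perm_succ] at e
        exact σ.injective e
      have e := h3.2.2
      rw [hs, perm_zero] at e
      rw [← e]
      exact out z h0
    · rw [bas_self (fun i y s h3 => h2 ⟨i, y, s, h3⟩)]
      exact out z h0

open Classical in
theorem around [Finite Q] {Λ : Type w} {ln : Q → Λ} (hln : ∀ x, ln (σ x) = ln x) (hP : PosU σ L n c l m)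
    (r : Q → Q → Prop) (hr : Equivalence r)
    (out : ∀ x, (∀ i y s, ¬ InS σ L n x i y s) → r x (σ x)) (i : ι) (p : Q) (hp : p ∈ L i)
    (ht : ∀ j y, y ∈ L j → ln y = ln p → (j, y) ≠ (i, p) → r y ((σ ^ n j) y)) :
    r p ((σ ^ n i) p) := by
  let st : Setoid Q := ⟨r, hr⟩
  have hlnp : ∀ x k, ln ((σ ^ k) x) = ln x := by
    intro x k
    induction k with
    | zero => rfl
    | succ k ih => rw [perm_succ, hln, ih]
  let C : Q → Option (Quotient st) := fun z => if ln z = ln p then some (Quotient.mk st (bas σ L n z)) else none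
  have hf : Function.Bijective fun z : Q => σ z := σ.bijective
  have hn := hP.pos i
  have hone := one_step hf C ((σ ^ (n i - 1)) p) (by
    intro x hx
    show (if ln (σ x) = ln p then some (Quotient.mk st (bas σ L n (σ x))) else none) =
      (if ln x = ln p then some (Quotient.mk st (bas σ L n x)) else none)
    rw [hln]
    by_cases h : ln x = ln p
    · rw [if_pos h, if_pos h]
      congr 1
      apply Quotient.sound
      apply hr.symm
      refine bas_step hP r hr out x ?_
      intro j y hy hxy
      refine ht j y hy ?_ ?_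
      · rw [← hlnp y (n j - 1), ← hxy, h]
      · intro he
        rw [Prod.mk.injEq] at he
        obtain ⟨rfl, rfl⟩ := he
        exact hx hxy
    · rw [if_neg h, if_neg h])
  have hz1 : ln ((σ ^ (n i - 1)) p) = ln p := hlnp _ _
  have hz2 : σ ((σ ^ (n i - 1)) p) = (σ ^ n i) p := by
    rw [← perm_succ]; congr 2; omega
  simp only [C, hz1, if_true, hz2, hlnp] at hone
  have h1 : bas σ L n ((σ ^ (n i - 1)) p) = p := bas_eq hP (i := i) (s := n i - 1) ⟨hp, by omega, rfl⟩
  have h2 : bas σ L n ((σ ^ n i) p) = (σ ^ n i) p := by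
    apply bas_self
    intro j y s h3
    have := hP.disj i j p y (n i) s hp h3.1 le_rfl h3.2.1.le h3.2.2
    obtain ⟨rfl, _, h4⟩ := this
    have := h3.2.1
    omega
  rw [h1, h2] at hone
  exact hr.symm (Quotient.exact (Option.some.inj hone))

/-- CONN with classes. -/
theorem conn_lines [Finite Q] {Λ : Type w} {ln : Q → Λ} (hln : ∀ x, ln (σ x) = ln x)
    (hln' : ∀ x y, ln x = ln y → ∃ k : ℕ, y = (σ ^ k) x)
    (hP : PosU σ L n c l m) {κ : Type*} {cl : Q → κ} {rk : ι → ℕ} (hT : TreeK ln cl c l m rk)
    (hsurj : Function.Surjective ln) (r : Q → Q → Prop) (hr : Equivalence r)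
    (out : ∀ x, (∀ i y s, ¬ InS σ L n x i y s) → r x (σ x))
    (bys : ∀ i, ∀ x ∈ L i, x ≠ c i → x ≠ l i → x ≠ m i → r x ((σ ^ n i) x))
    (cup : ∀ i, r (l i) (c i)) (cap : ∀ i, r ((σ ^ n i) (c i)) ((σ ^ n i) (m i)))
    (thr : ∀ i, r (m i) ((σ ^ n i) (l i))) :
    ∀ x y, (∀ i y s, InS σ L n x i y s → s = 0) → (∀ i z s, InS σ L n y i z s → s = 0) → cl x = cl y → r x y := by
  have hsym := fun {x y : Q} (h : r x y) => hr.symm h
  have htr := fun {x y z : Q} (h : r x y) (h' : r y z) => hr.trans h h'
  -- all windows are transparent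
  have key : ∀ N i, rk i < N → ∀ x ∈ L i, r x ((σ ^ n i) x) := by
    intro N
    induction N with
    | zero => intro i h; omega
    | succ N ih =>
      intro i hi
      have hprev : ∀ j, rk j < rk i → ∀ x ∈ L j, r x ((σ ^ n j) x) := fun j hj => ih j (by omega)
      obtain ⟨p, hp, hp2⟩ := hT.two i
      have hpriv : ∀ x, (x = c i ∨ x = l i ∨ x = m i) → p x → r x ((σ ^ n i) x) := by
        intro x hx hpx
        have hxL : x ∈ L i := by
          rcases hx with rfl | rfl | rfl
          · exact hP.hc i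
          · exact hP.hl i
          · exact hP.hm i
        refine around hln hP r hr out i x hxL ?_
        intro j y hy hlny hne
        by_cases hjr : rk j < rk i
        · exact hprev j hjr y hy
        by_cases hji : j = i
        · subst hji
          have hyx : y ≠ x := fun h => hne (by rw [h])
          have hcl := hT.cl j
          have hcm := hT.cm j
          have hlm := hT.lm j
          refine bys j y hy ?_ ?_ ?_
          · rintro rfl
            rcases hx with rfl | rfl | rfl
            · exact hyx rfl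
            · exact hcl hlny
            · exact hcm hlny
          · rintro rfl
            rcases hx with rfl | rfl | rfl
            · exact hcl hlny.symm
            · exact hyx rfl
            · exact hlm hlny
          · rintro rfl
            rcases hx with rfl | rfl | rfl
            · exact hcm hlny.symm
            · exact hlm hlny.symm
            · exact hyx rfl
        · refine bys j y hy ?_ ?_ ?_
          · intro h; exact hjr (hp2 x hpx j hji (Or.inl (by rw [← hlny, h])))
          · intro h; exact hjr (hp2 x hpx j hji (Or.inr (Or.inl (by rw [← hlny, h]))))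
          · intro h; exact hjr (hp2 x hpx j hji (Or.inr (Or.inr (by rw [← hlny, h]))))
      have e1 := cup i
      have e2 := cap i
      have e3 := thr i
      have hall : r (c i) ((σ ^ n i) (c i)) ∧ r (l i) ((σ ^ n i) (l i)) ∧ r (m i) ((σ ^ n i) (m i)) := by
        rcases hp with ⟨h1, h2⟩ | ⟨h1, h2⟩ | ⟨h1, h2⟩
        · have hc := hpriv _ (Or.inl rfl) h1
          have hl := hpriv _ (Or.inr (Or.inl rfl)) h2
          exact ⟨hc, hl, htr e3 (htr (hsym hl) (htr e1 (htr hc e2)))⟩
        · have hc := hpriv _ (Or.inl rfl) h1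
          have hm := hpriv _ (Or.inr (Or.inr rfl)) h2
          exact ⟨hc, htr e1 (htr hc (htr e2 (htr (hsym hm) e3))), hm⟩
        · have hl := hpriv _ (Or.inr (Or.inl rfl)) h1
          have hm := hpriv _ (Or.inr (Or.inr rfl)) h2
          exact ⟨htr (hsym e1) (htr hl (htr (hsym e3) (htr hm (hsym e2)))), hl, hm⟩
      intro x hx
      by_cases h1 : x = c i
      · rw [h1]; exact hall.1
      by_cases h2 : x = l i
      · rw [h2]; exact hall.2.1
      by_cases h3 : x = m i
      · rw [h3]; exact hall.2.2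
      exact bys i x hx h1 h2 h3
  have trans : ∀ i, ∀ x ∈ L i, r x ((σ ^ n i) x) := fun i => key (rk i + 1) i (by omega)
  -- along a line
  have hline : ∀ x (k : ℕ), r (bas σ L n x) (bas σ L n ((σ ^ k) x)) := by
    intro x k
    induction k with
    | zero => exact hr.refl _
    | succ k ih =>
      rw [perm_succ]
      exact htr ih (bas_step hP r hr out _ fun i y hy _ => trans i y hy)
  have hgood : ∀ x, (∀ i y s, InS σ L n x i y s → s = 0) → bas σ L n x = x := by
    intro x hx
    by_cases h : ∃ i y s, InS σ L n x i y s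
    · obtain ⟨i, y, s, h1⟩ := h
      rw [bas_eq hP h1]
      have := hx i y s h1
      have h2 := h1.2.2
      rw [this, perm_zero] at h2
      exact h2.symm
    · exact bas_self fun i y s h1 => h ⟨i, y, s, h1⟩
  have hcov := hT.cov (fun p q => ∀ x y, ln x = p → ln y = q → r (bas σ L n x) (bas σ L n y)) (by
    refine ⟨?_, ?_, ?_⟩
    · intro p x y hx hy
      obtain ⟨k, rfl⟩ := hln' x y (hx.trans hy.symm)
      exact hline x k
    · intro p q h x y hx hy
      exact hsym (h y x hy hx)
    · intro p q s h1 h2 x y hx hy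
      obtain ⟨z, hz⟩ := hsurj q
      exact htr (h1 x z hx hz) (h2 z y hz hy)) (by
    intro i
    have hlnp : ∀ x k, ln ((σ ^ k) x) = ln x := by
      intro x k
      induction k with
      | zero => rfl
      | succ k ih => rw [perm_succ, hln, ih]
    have hb0 : ∀ x ∈ L i, bas σ L n x = x := fun x hx =>
      bas_eq hP (x := x) (i := i) (s := 0) ⟨hx, hP.pos i, rfl⟩
    have hb1 : ∀ x ∈ L i, bas σ L n ((σ ^ n i) x) = (σ ^ n i) x := by
      intro x hx
      apply bas_self
      intro j y s h3
      have := hP.disj i j x y (n i) s hx h3.1 le_rfl h3.2.1.le h3.2.2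
      obtain ⟨rfl, _, h4⟩ := this
      have := h3.2.1
      omega
    constructor
    · intro x y hx hy
      obtain ⟨k, hk⟩ := hln' x (c i) hx
      obtain ⟨k', hk'⟩ := hln' (l i) y hy.symm
      have a1 := hline x k
      rw [← hk, hb0 _ (hP.hc i)] at a1
      have a2 := hline (l i) k'
      rw [← hk', hb0 _ (hP.hl i)] at a2
      exact htr a1 (htr (hsym (cup i)) a2)
    · intro x y hx hy
      obtain ⟨k, hk⟩ := hln' x ((σ ^ n i) (c i)) (by rw [hx, hlnp])
      obtain ⟨k', hk'⟩ := hln' ((σ ^ n i) (m i)) y (by rw [hy, hlnp])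
      have a1 := hline x k
      rw [← hk, hb1 _ (hP.hc i)] at a1
      have a2 := hline ((σ ^ n i) (m i)) k'
      rw [← hk', hb1 _ (hP.hm i)] at a2
      exact htr a1 (htr (cap i) a2))
  intro x y hx hy hxy
  have := hcov x y hxy x y rfl rfl
  rwa [hgood x hx, hgood y hy] at this

end

end Pool.Agent.Lib.MP_688fd0_co.SQ3
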