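import Pool.Agent.Lib.MP_688fd0_co.SQ3.TWU

/-!
Flat windows and their versions in the language of `Up`.
-/

set_option autoImplicit false

namespace Pool.Agent.Lib.MP_688fd0_co.SQ3

open Pool.Agent.Lib.MP_688fd0_co.OSF Pool.Agent.Lib.MP_688fd0_co.SQ2

universe u v w

variable {Q : Type u} [Group Q] [DecidableEq Q] {B : Lb.{u, v} Q}

/-- A flat three-line window: centre `u₁`, leaves `u₀` and `xs`; `n` is its height. -/
structure Flat (U : Up B) (X : TW B) (n : ℕ) (xs : Q) : Prop where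
  pos : 0 < n
  top : X.L₁ = im (U.U ^ n) X.L₀
  reg : X.R = ∑ i ∈ Finset.range n, (im (U.U ^ i) X.L₀).val
  xs_mem : xs ∈ X.tok₀
  w₀ : X.w₀ = (U.U ^ n) X.u₁
  w₁ : X.w₁ = (U.U ^ n) xs
  f_xs : X.f xs = (U.U ^ n) X.u₀
  f : ∀ x ∈ X.tok₀, x ≠ xs → X.f x = (U.U ^ n) x

/-- `X'` is another version of `X`. -/
structure Ver (U : Up B) (X X' : TW B) (n : ℕ) (xs : Q) : Prop where
  flat : Flat U X n xs
  flat' : Flat U X' n xs
  L₀ : X'.L₀ = X.L₀
  u₀ : X'.u₀ = X.u₀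
  u₁ : X'.u₁ = X.u₁
  cup : X'.cup = X.cup
  cap : X'.cap = X.cap

/-- The change of volume by the other version of a window, for the weight `w` of the tokens. -/
def dvolw {R : Type w} [CommRing R] (V : Vd B R) (w : Q → R) (X X' : TW B) : R :=
  ∑ x ∈ X.tok₀, w x * (V.vol x (X'.path x) - V.vol x (X.path x))

/-- The union of the levels `L, U L, .., U ^ (n - 1) L`. -/
theorem Flat.reg' {U : Up B} {X : TW B} {n : ℕ} {xs : Q} (h : Flat U X n xs) : X.R = U.lev X.L₀ n := h.reg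

theorem Ver.refl {U : Up B} {X : TW B} {n : ℕ} {xs : Q} (h : Flat U X n xs) : Ver U X X n xs :=
  ⟨h, h, rfl, rfl, rfl, rfl, rfl⟩

theorem tok_verts (X : TW B) : ∑ x ∈ X.tok₀, (B.verts x (X.path x) : Multiset Q) =
    ∑ x ∈ X.tok₀, (src B x (X.path x) : Multiset Q) + X.tok₁.val := by
  rw [← TW.sum_singleton X.tok₁, ← X.sum_f fun y => ({y} : Multiset Q), ← Finset.sum_add_distrib]
  refine Finset.sum_congr rfl fun x hx => ?_
  have hx' := TW.mem_tok₀.1 hx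
  rw [verts_eq, X.path_fin x hx'.1 hx'.2.1 hx'.2.2]
  rfl

theorem Flat.le {U : Up B} {X : TW B} {n : ℕ} {xs : Q} (h : Flat U X n xs) :
    ∑ x ∈ X.tok₀, (B.verts x (X.path x) : Multiset Q) ≤
      ∑ s ∈ Finset.range (n + 1), (im (U.U ^ s) X.L₀).val := by
  have h1 : ∑ x ∈ X.tok₀, (src B x (X.path x) : Multiset Q) ≤ X.R := by
    unfold TW.R
    rw [add_assoc]
    exact Multiset.le_add_right _ _
  have h2 : X.tok₁.val ≤ X.L₁.val := by
    rw [X.L₁_val, add_assoc]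
    exact Multiset.le_add_right _ _
  rw [tok_verts, Finset.sum_range_succ, ← h.reg, ← h.top]
  exact add_le_add h1 h2

theorem Ver.tok₀ {U : Up B} {X X' : TW B} {n : ℕ} {xs : Q} (h : Ver U X X' n xs) : X'.tok₀ = X.tok₀ := by
  ext x; rw [TW.mem_tok₀, TW.mem_tok₀, h.L₀, h.u₀, h.u₁]

theorem Ver.fin {U : Up B} {X X' : TW B} {n : ℕ} {xs : Q} (h : Ver U X X' n xs) {x : Q} (hx : x ∈ X.tok₀) :
    X'.f x = X.f x := by
  by_cases hxs : x = xs
  · rw [hxs, h.flat.f_xs, h.flat'.f_xs, h.u₀]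
  · rw [h.flat.f x hx hxs, h.flat'.f x (by rw [h.tok₀]; exact hx) hxs]

theorem Ver.verts {U : Up B} {X X' : TW B} {n : ℕ} {xs : Q} (h : Ver U X X' n xs) :
    ∑ x ∈ X.tok₀, (B.verts x (X'.path x) : Multiset Q) =
      ∑ x ∈ X.tok₀, (B.verts x (X.path x) : Multiset Q) := by
  have e1 : X'.tok₁ = X.tok₁ := by
    ext x
    rw [TW.mem_tok₁, TW.mem_tok₁, h.flat.top, h.flat'.top, h.L₀, h.flat.w₀, h.flat'.w₀, h.flat.w₁, h.flat'.w₁,
      h.u₁]
  have e2 : X'.R = X.R := by rw [h.flat.reg, h.flat'.reg, h.L₀]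
  have e3 : X'.w₀ = X.w₀ := by rw [h.flat.w₀, h.flat'.w₀, h.u₁]
  unfold TW.R at e2
  rw [h.tok₀, h.u₀, e3, h.cup, h.cap, add_assoc, add_assoc] at e2
  have e4 := add_right_cancel e2
  have e5 := tok_verts X'
  rw [h.tok₀, e1, e4, ← tok_verts] at e5
  exact e5

end Pool.Agent.Lib.MP_688fd0_co.SQ3
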