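import Pool.Agent.Lib.MP_688fd0_co.SQ2.TW

/-!
The map `up`: every vertex goes up by its own label. `U x = x q(up x)` is a permutation; its orbits are the lines.
-/

set_option autoImplicit false

namespace Pool.Agent.Lib.MP_688fd0_co.SQ3

open Pool.Agent.Lib.MP_688fd0_co.OSF Pool.Agent.Lib.MP_688fd0_co.SQ2

universe u v w

/-- A label at every vertex such that `x ↦ x q(up x)` is a permutation `U`. -/
structure Up {Q : Type u} [Group Q] (B : Lb.{u, v} Q) where
  up : Q → B.L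
  U : Equiv.Perm Q
  hU : ∀ x, U x = x * B.q (up x)

/-- Image of a finite set under a permutation. -/
def im {Q : Type u} (σ : Equiv.Perm Q) (L : Finset Q) : Finset Q := L.map σ.toEmbedding

section im

variable {Q : Type u}

theorem mem_im {σ : Equiv.Perm Q} {L : Finset Q} {x : Q} : x ∈ im σ L ↔ σ⁻¹ x ∈ L := by
  unfold im
  rw [Finset.mem_map_equiv]
  rfl

theorem map_mem_im {σ : Equiv.Perm Q} {L : Finset Q} {x : Q} : σ x ∈ im σ L ↔ x ∈ L := by
  rw [mem_im]
  simp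

theorem im_one (L : Finset Q) : im (1 : Equiv.Perm Q) L = L := by
  ext x; rw [mem_im]; simp

theorem im_mul (σ τ : Equiv.Perm Q) (L : Finset Q) : im (σ * τ) L = im σ (im τ L) := by
  ext x; rw [mem_im, mem_im, mem_im, mul_inv_rev]; rfl

theorem im_val (σ : Equiv.Perm Q) (L : Finset Q) : (im σ L).val = ∑ x ∈ L, {σ x} := by
  have h1 : ∑ x ∈ im σ L, ({x} : Multiset Q) = (im σ L).val := by
    rw [Finset.sum_multiset_singleton]
  rw [← h1]
  unfold im
  rw [Finset.sum_map]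
  rfl

end im

namespace Up

variable {Q : Type u} [Group Q] {B : Lb.{u, v} Q} (u : Up B)

/-- The labels of the straight path of length `n` from `x`. -/
def str : ℕ → Q → List B.L
  | 0, _ => []
  | n + 1, x => u.up x :: str n (u.U x)

/-- The labels of the path down from `U ^ n x` to `x`. -/
def dn (n : ℕ) (x : Q) : List B.L := B.rev (u.str n x)

@[simp] theorem str_zero (x : Q) : u.str 0 x = [] := rfl

theorem str_succ (n : ℕ) (x : Q) : u.str (n + 1) x = u.up x :: u.str n (u.U x) := rfl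

theorem U_pow_succ (n : ℕ) (x : Q) : (u.U ^ (n + 1)) x = (u.U ^ n) (u.U x) := by
  rw [pow_succ]; rfl

theorem U_pow_succ' (n : ℕ) (x : Q) : (u.U ^ (n + 1)) x = u.U ((u.U ^ n) x) := by
  rw [pow_succ']; rfl

theorem U_pow_add (m n : ℕ) (x : Q) : (u.U ^ (m + n)) x = (u.U ^ n) ((u.U ^ m) x) := by
  rw [add_comm, pow_add]; rfl

theorem fin_str (n : ℕ) (x : Q) : B.fin x (u.str n x) = (u.U ^ n) x := by
  induction n generalizing x with
  | zero => rfl
  | succ n ih =>
    show B.fin (x * B.q (u.up x)) (u.str n (u.U x)) = _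
    rw [← u.hU, ih, U_pow_succ]

theorem str_add (m n : ℕ) (x : Q) : u.str (m + n) x = u.str m x ++ u.str n ((u.U ^ m) x) := by
  induction m generalizing x with
  | zero => rw [zero_add]; rfl
  | succ m ih =>
    rw [show m + 1 + n = (m + n) + 1 by ring, str_succ, ih, U_pow_succ, str_succ]
    rfl

theorem str_succ' (n : ℕ) (x : Q) : u.str (n + 1) x = u.str n x ++ [u.up ((u.U ^ n) x)] := by
  rw [str_add]; rfl

theorem dn_zero (x : Q) : u.dn 0 x = [] := rfl

theorem dn_one (x : Q) : u.dn 1 x = [B.inv (u.up x)] := rfl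

theorem fin_dn (n : ℕ) (x : Q) : B.fin ((u.U ^ n) x) (u.dn n x) = x := by
  unfold dn
  rw [← fin_str, fin_rev]

/-- The multiset `x, U x, .., U ^ (n - 1) x`. -/
theorem src_str (n : ℕ) (x : Q) :
    (src B x (u.str n x) : Multiset Q) = ∑ i ∈ Finset.range n, {(u.U ^ i) x} := by
  induction n generalizing x with
  | zero => rfl
  | succ n ih =>
    rw [str_succ]
    show ((x :: src B (x * B.q (u.up x)) (u.str n (u.U x)) : List Q) : Multiset Q) = _
    rw [← u.hU, ← Multiset.cons_coe, ih, Finset.sum_range_succ', ← Multiset.singleton_add, add_comm]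
    congr 1

/-- The vertices of the path down without the start. -/
theorem src_dn (n : ℕ) (x : Q) :
    (src B ((u.U ^ n) x) (u.dn n x) : Multiset Q) + {x} =
      {(u.U ^ n) x} + ∑ i ∈ Finset.range n, {(u.U ^ i) x} := by
  have h1 := verts_rev (B := B) x (u.str n x)
  rw [verts_eq, fin_rev, fin_str] at h1
  have h2 := congrArg (fun l : List Q => (l : Multiset Q)) h1
  simp only [Multiset.coe_reverse] at h2
  rw [verts_eq, fin_str, ← Multiset.coe_add, ← Multiset.coe_add, src_str] at h2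
  rw [add_comm ({(u.U ^ n) x} : Multiset Q)]
  exact h2

/-- The straight pieces have volume zero. -/
theorem vol_str {R : Type*} [CommRing R] (V : Vd B R) (h : ∀ x, V.n (u.up x) = 0) (n : ℕ) (x : Q) :
    V.vol x (u.str n x) = 0 := by
  induction n generalizing x with
  | zero => rfl
  | succ n ih =>
    show V.chi x * V.n (u.up x) + V.vol (x * B.q (u.up x)) (u.str n (u.U x)) = 0
    rw [h, mul_zero, zero_add, ← u.hU, ih]

/-- The union of `n` levels. -/
def lev (L : Finset Q) (n : ℕ) : Multiset Q := ∑ i ∈ Finset.range n, (im (u.U ^ i) L).val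

theorem lev_eq (L : Finset Q) (n : ℕ) :
    u.lev L n = ∑ y ∈ L, ∑ i ∈ Finset.range n, {(u.U ^ i) y} := by
  unfold lev
  rw [Finset.sum_comm]
  exact Finset.sum_congr rfl fun i _ => im_val _ _

/-! ### Left translations -/

/-- `P`: left multiplications that commute with `up`; `D ≤ P` is normal and `U x ∈ z x D` with `z ∈ P`. -/
structure Dat (u : Up B) (P D : Subgroup Q) (z : Q) : Prop where
  upc : ∀ g ∈ P, ∀ x, u.up (g * x) = u.up x
  nrm : D.Normal
  le : D ≤ P
  hz : z ∈ P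
  mem : ∀ x, x⁻¹ * (z⁻¹ * u.U x) ∈ D

variable {u} {P D : Subgroup Q} {z : Q}

namespace Dat

theorem com (h : u.Dat P D z) {g : Q} (hg : g ∈ P) (x : Q) : u.U (g * x) = g * u.U x := by
  rw [u.hU, u.hU, h.upc g hg, mul_assoc]

theorem com_inv (h : u.Dat P D z) {g : Q} (hg : g ∈ P) (x : Q) : u.U⁻¹ (g * x) = g * u.U⁻¹ x := by
  rw [Equiv.Perm.inv_eq_iff_eq, h.com hg]
  simp

theorem com_pow (h : u.Dat P D z) {g : Q} (hg : g ∈ P) (n : ℕ) (x : Q) :
    (u.U ^ n) (g * x) = g * (u.U ^ n) x := by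
  induction n with
  | zero => rfl
  | succ n ih => rw [U_pow_succ', ih, h.com hg, U_pow_succ']

theorem com_zpow (h : u.Dat P D z) {g : Q} (hg : g ∈ P) (n : ℤ) (x : Q) :
    (u.U ^ n) (g * x) = g * (u.U ^ n) x := by
  cases n with
  | ofNat n => exact h.com_pow hg n x
  | negSucc n =>
    rw [zpow_negSucc, Equiv.Perm.inv_eq_iff_eq, h.com_pow hg]
    simp

/-- Right multiplication by an element of `D` is left multiplication by an element of `D`. -/
theorem conj (h : u.Dat P D z) (x : Q) {d : Q} (hd : d ∈ D) : x * d * x⁻¹ ∈ D := h.nrm.conj_mem d hd x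

theorem conj' (h : u.Dat P D z) (x : Q) {d : Q} (hd : d ∈ D) : x⁻¹ * d * x ∈ D := by
  have := h.nrm.conj_mem d hd x⁻¹
  rwa [inv_inv] at this

/-- The sheets are moved to sheets. -/
theorem sheet (h : u.Dat P D z) {x y : Q} (hxy : x⁻¹ * y ∈ D) (n : ℤ) :
    ((u.U ^ n) x)⁻¹ * (u.U ^ n) y ∈ D := by
  have h1 : y = x * (x⁻¹ * y) * x⁻¹ * x := by group
  have h2 := h.conj x hxy
  rw [h1, h.com_zpow (h.le h2), ← mul_assoc]
  exact h.conj' _ h2

theorem zpow_mem (h : u.Dat P D z) (n : ℤ) : z ^ n ∈ P := P.zpow_mem h.hz n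

/-- `U ^ n x ∈ z ^ n x D`. -/
theorem mem_pow (h : u.Dat P D z) (n : ℕ) (x : Q) : x⁻¹ * ((z ^ n)⁻¹ * (u.U ^ n) x) ∈ D := by
  induction n with
  | zero =>
    rw [pow_zero, inv_one, one_mul]
    show x⁻¹ * x ∈ D
    rw [inv_mul_cancel]; exact D.one_mem
  | succ n ih =>
    have h1 := h.mem ((z ^ n)⁻¹ * (u.U ^ n) x)
    have h3 : (z ^ n)⁻¹ ∈ P := P.inv_mem (P.pow_mem h.hz n)
    rw [h.com h3] at h1
    have h2 := D.mul_mem ih h1
    have e : x⁻¹ * ((z ^ n)⁻¹ * (u.U ^ n) x) * (((z ^ n)⁻¹ * (u.U ^ n) x)⁻¹ * (z⁻¹ * ((z ^ n)⁻¹ * u.U ((u.U ^ n) x)))) =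
        x⁻¹ * ((z ^ (n + 1))⁻¹ * u.U ((u.U ^ n) x)) := by
      rw [pow_succ]; group
    rw [e] at h2
    rw [U_pow_succ']
    exact h2

/-- `U ^ n x ∈ z ^ n x D`. -/
theorem mem_zpow (h : u.Dat P D z) (n : ℤ) (x : Q) : x⁻¹ * ((z ^ n)⁻¹ * (u.U ^ n) x) ∈ D := by
  obtain ⟨n, rfl | rfl⟩ := n.eq_nat_or_neg
  · rw [zpow_natCast, zpow_natCast]
    exact h.mem_pow n x
  · have h1 := h.mem_pow n ((u.U ^ (-(n : ℤ))) x)
    have h2 : (u.U ^ n) ((u.U ^ (-(n : ℤ))) x) = x := by
      rw [zpow_neg, zpow_natCast]; simp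
    rw [h2] at h1
    have h3 := D.inv_mem h1
    have e : (((u.U ^ (-(n : ℤ))) x)⁻¹ * ((z ^ n)⁻¹ * x))⁻¹ = x⁻¹ * ((z ^ (-(n : ℤ)))⁻¹ * (u.U ^ (-(n : ℤ))) x) := by
      generalize (u.U ^ (-(n : ℤ))) x = y
      group
    rwa [e] at h3

end Dat

end Up

end Pool.Agent.Lib.MP_688fd0_co.SQ3
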