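import Pool.Agent.Lib.MP_688fd0_co.SQ3.Cls
import Pool.Agent.Lib.MP_688fd0_co.SQ2.Iface
import Pool.Agent.Lib.MP_688fd0_co.SQ2.H41.Gne

/-!
Board `sqe_modules` (stage E: orders of any parity; papers 4113, 4114, small cases 4109, 4115). Statements of the rows.

`A = q a`; `eps : Q → {1, -1}`; the lines are the orbits of `U x = x A ^ (eps x)` (the cosets of the cyclic group of
`A`); `D` is normal, of order dividing `k`; `x z x⁻¹ = z ^ (eps x)`, `A ∈ z D`; so `U x ∈ z x D` and `U ^ k x = z ^ k x`.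
Type A is `eps = 1`. The numbers `Sink`, `Sep`, `Lev`, `hgt`, `lam`, `needW` are those of `SQ2/Iface.lean`.
There are one or two tours: `cl x = false` on the lines of the first tour; if there is a vertex with `cl x = true`
then these vertices form one line (the second tour).
-/

set_option autoImplicit false

namespace Pool.Agent.Lib.MP_688fd0_co.SQ3

open Pool.Agent.Lib.MP_688fd0_co.OSF Pool.Agent.Lib.MP_688fd0_co.SQ2

universe u v w

/-! ### The lines -/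

section

variable {Q : Type u} [Group Q] (B : Lb.{u, v} Q) (a : B.L) (eps : Q →* ℤˣ)

/-- `up x` is `a` or its inverse, `U x = x A ^ (eps x)`. -/
def upE (h : eps (B.q a) = 1) : Up B where
  up := fun x => if eps x = 1 then a else B.inv a
  U :=
    { toFun := fun x => x * B.q a ^ ((eps x : ℤˣ) : ℤ)
      invFun := fun x => x * B.q a ^ (-((eps x : ℤˣ) : ℤ))
      left_inv := fun x => by
        have h1 : eps (x * B.q a ^ ((eps x : ℤˣ) : ℤ)) = eps x := by rw [map_mul, map_zpow, h, one_zpow, mul_one]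
        show x * B.q a ^ ((eps x : ℤˣ) : ℤ) * B.q a ^ (-((eps (x * B.q a ^ ((eps x : ℤˣ) : ℤ)) : ℤˣ) : ℤ)) = x
        rw [h1, mul_assoc, ← zpow_add, add_neg_cancel, zpow_zero, mul_one]
      right_inv := fun x => by
        have h1 : eps (x * B.q a ^ (-((eps x : ℤˣ) : ℤ))) = eps x := by
          rw [map_mul, map_zpow, h, one_zpow, mul_one]
        show x * B.q a ^ (-((eps x : ℤˣ) : ℤ)) * B.q a ^ ((eps (x * B.q a ^ (-((eps x : ℤˣ) : ℤ))) : ℤˣ) : ℤ) = x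
        rw [h1, mul_assoc, ← zpow_add, neg_add_cancel, zpow_zero, mul_one] }
  hU := fun x => by
    show x * B.q a ^ ((eps x : ℤˣ) : ℤ) = _
    by_cases h1 : eps x = 1
    · rw [if_pos h1, h1, Units.val_one, zpow_one]
    · have h2 : eps x = -1 := (Int.units_eq_one_or (eps x)).resolve_left h1
      rw [if_neg h1, h2, Units.val_neg, Units.val_one, zpow_neg_one, B.q_inv]

end

/-- The common hypotheses at the level of the quotient. -/
structure Hyp {Q : Type} [Group Q] (B : Lb.{0, 0} Q) (a : B.L) (eps : Q →* ℤˣ) (D : Subgroup Q) (z : Q)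
    (k : ℕ) : Prop where
  fin : Finite Q
  finL : Finite B.L
  gen : Subgroup.closure (Set.range B.q) = ⊤
  nrm : D.Normal
  card : Nat.card D ∣ k
  kpos : 0 < k
  le : D ≤ eps.ker
  ea : eps (B.q a) = 1
  tw : ∀ x : Q, x * z * x⁻¹ = z ^ ((eps x : ℤˣ) : ℤ)
  mem : z⁻¹ * B.q a ∈ D

/-- The lines. -/
def Hyp.up {Q : Type} [Group Q] {B : Lb.{0, 0} Q} {a : B.L} {eps : Q →* ℤˣ} {D : Subgroup Q} {z : Q} {k : ℕ}
    (H : Hyp B a eps D z k) : Up B := upE B a eps H.ea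

/-- A frontier. -/
structure Fr {Q : Type u} [Group Q] {B : Lb.{u, v} Q} (U : Up B) (D : Subgroup Q) (W : ℕ) (F : Finset Q) : Prop where
  inv : ∀ s ∈ F, ∀ δ ∈ D, s * δ ∈ F
  disj : ∀ s ∈ F, ∀ t : ℤ, |t| ≤ W → (U.U ^ t) s ∈ F → t = 0

/-- The condition on the voltages at a prime: `alpha ≠ 1` and the commutator with some label is not trivial, or
`alpha = 1`, `n a ≠ 0` and `chi ≠ eps` on some label. -/
def KapC {Q : Type u} [Group Q] {B : Lb.{u, v} Q} {R : Type w} [CommRing R] (V : Vd B R) (a : B.L)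
    (eps : Q →* ℤˣ) : Prop :=
  (V.chi (B.q a) ≠ 1 ∧ ∃ s, V.kap a s ≠ 0) ∨
    (V.chi (B.q a) = 1 ∧ V.n a ≠ 0 ∧ ∃ s, V.chi (B.q s) ≠ (((eps (B.q s) : ℤˣ) : ℤ) : R))

/-! ### The tree and the frontiers -/

/-- The paths of length two: centre line of `x i`, leaves the lines of `x i b₁` and of `U ^ j (x i) b₂`, colours `d`,
classes `cl`, and their frontiers. -/
structure Ctx {Q : Type} [Group Q] (B : Lb.{0, 0} Q) (a : B.L) (U : Up B) (D : Subgroup Q) (k c W : ℕ)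
    (d cl : Q → Bool) {ι : Type} (x : ι → Q) (b₁ b₂ : ι → B.L) (j : ι → ℕ) (F : ι → Finset Q) : Prop where
  sink : Sink B a D W
  sep : Sep B a D c W
  lev : Lev B a D W
  /-- at least three lines -/
  three : 3 ≤ (Subgroup.zpowers (B.q a)).index
  d_line : ∀ y, d (U.U y) = d y
  c_line : ∀ y, cl (U.U y) = cl y
  /-- at most one line outside the first tour -/
  one : ∀ y y', cl y = true → cl y' = true → ∃ t : ℤ, y' = (U.U ^ t) y
  /-- the number of lines of the first tour is odd -/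
  oddc : ∃ n : ℕ, Odd n ∧ Nat.card {y : Q // cl y = false} = n * orderOf (B.q a)
  d₁ : ∀ i, d (x i * B.q (b₁ i)) = !d (x i)
  d₂ : ∀ i, d ((U.U ^ j i) (x i) * B.q (b₂ i)) = !d (x i)
  c₀ : ∀ i, cl (x i) = false
  c₁ : ∀ i, cl (x i * B.q (b₁ i)) = false
  c₂ : ∀ i, cl ((U.U ^ j i) (x i) * B.q (b₂ i)) = false
  j_lt : ∀ i, j i < k
  /-- the two leaves are different lines -/
  ne : ∀ i (t : ℤ), (U.U ^ t) (x i * B.q (b₁ i)) ≠ (U.U ^ j i) (x i) * B.q (b₂ i)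
  /-- every line of the first tour occurs -/
  cov : ∀ y, cl y = false → ∃ i, ∃ t : ℤ, y = (U.U ^ t) (x i) ∨ y = (U.U ^ t) (x i * B.q (b₁ i)) ∨
    y = (U.U ^ t) ((U.U ^ j i) (x i) * B.q (b₂ i))
  fr : ∀ i, Fr U D W (F i)
  fx : ∀ i, x i ∈ F i
  /-- all sheets at distance at most four are there (up to a small level) -/
  fsh : ∀ i (l : List B.L), l.length ≤ 4 → ∃ o : ℤ, |o| ≤ c ∧ (U.U ^ o) (B.fin (x i) l) ∈ F i
  /-- and no others -/
  fsub : ∀ i, ∀ s ∈ F i, ∃ l : List B.L, l.length ≤ 4 ∧ ∃ o : ℤ, ((U.U ^ o) (B.fin (x i) l))⁻¹ * s ∈ D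
  fcard : ∀ i, (F i).card ≤ (Nat.card B.L + 2) ^ 4 * k

/-- A flat window of the path number `i`, of height `n`; `s₁`, `s₂` are the strands of the leaves. It starts at the
level `t₀`. -/
structure FWin {Q : Type u} [Group Q] [DecidableEq Q] {B : Lb.{u, v} Q} (U : Up B) (k : ℕ) (F : Finset Q) (t₀ : ℕ)
    (x s₁ s₂ : Q) (X : TW B) (n : ℕ) : Prop where
  L₀ : X.L₀ = im (U.U ^ t₀) F
  u₁ : X.u₁ = (U.U ^ t₀) x
  u₀ : X.u₀ = (U.U ^ t₀) s₁
  flat : Flat U X n ((U.U ^ t₀) s₂)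
  dvd : k ∣ n

/-- The strands of the leaves. -/
structure Leaves {Q : Type u} [Group Q] {B : Lb.{u, v} Q} (U : Up B) (F : Finset Q) (x : Q) (b₁ b₂ : B.L) (j c : ℕ)
    (s₁ s₂ : Q) : Prop where
  h₁ : s₁ ∈ F
  h₂ : s₂ ∈ F
  e₁ : ∃ o : ℤ, |o| ≤ c ∧ x * B.q b₁ = (U.U ^ o) s₁
  e₂ : ∃ o : ℤ, |o| ≤ c + j ∧ (U.U ^ j) x * B.q b₂ = (U.U ^ o) s₂

/-- FLIP: flat windows exist, and for every prime and every class there are two versions of a flat window of one of the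
paths with different volumes. The start levels `t₀` depend on the path only. -/
def FlipS : Prop :=
  ∀ (Q : Type) [Group Q] [DecidableEq Q] (B : Lb.{0, 0} Q) (a : B.L) (eps : Q →* ℤˣ) (D : Subgroup Q) (z : Q) (k : ℕ)
    (H : Hyp B a eps D z k) (c W : ℕ) (d cl : Q → Bool) (ι : Type) (x : ι → Q) (b₁ b₂ : ι → B.L) (j : ι → ℕ)
    (F : ι → Finset Q), Ctx B a H.up D k c W d cl x b₁ b₂ j F → (∀ i, lam (F i).card k c ≤ W) →
      ∃ t₀ : ι → ℕ, (∀ i, t₀ i ≤ lam (F i).card k c) ∧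
      (∀ i (s₁ s₂ : Q), Leaves H.up (F i) (x i) (b₁ i) (b₂ i) (j i) c s₁ s₂ →
        ∃ (X : TW B) (n : ℕ), n ≤ lam (F i).card k c ∧ FWin H.up k (F i) (t₀ i) (x i) s₁ s₂ X n) ∧
      ∀ (p : ℕ) (_ : Fact p.Prime) (V : Vd B (ZMod p)), 4 * k < p → V.chi z = 1 → KapC V a eps →
        ∀ γ : Bool, (∃ y, cl y = γ) →
        ∃ i : ι, ∀ s₁ s₂ : Q, Leaves H.up (F i) (x i) (b₁ i) (b₂ i) (j i) c s₁ s₂ →
          ∃ (X X' : TW B) (n : ℕ), n ≤ lam (F i).card k c ∧ FWin H.up k (F i) (t₀ i) (x i) s₁ s₂ X n ∧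
            Ver H.up X X' n ((H.up.U ^ t₀ i) s₂) ∧ dvolw V (wcl cl d γ) X X' ≠ 0

/-! ### One or two tours -/

/-- BLOCKS: flat windows along a tree of lines, several of them (the slots) for each path, each slot in two versions. -/
def BlocksS : Prop :=
  ∀ (Q : Type) [Group Q] [Fintype Q] [DecidableEq Q] (B : Lb.{0, 0} Q) (U : Up B) (Λ : Type) (ln : Q → Λ)
    (d cl : Q → Bool) (ι : Type) [Fintype ι] [DecidableEq ι] (rk : ι → ℕ),
    (∀ x, ln (U.U x) = ln x) → (∀ x y, ln x = ln y → ∃ m : ℕ, y = (U.U ^ m) x) → Function.Surjective ln →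
    (∀ x, d (U.U x) = d x) → (∀ x, cl (U.U x) = cl x) →
    ∀ (κ : Type) [Fintype κ] (π : κ → ι), Function.Surjective π →
    ∀ (h : κ → ℕ) (g : κ → Q) (X X' : κ → TW B) (L₀ : ι → Finset Q) (u₀ u₁ xs : ι → Q),
    (∀ j, Ver U (X j) (X' j) (h j) (xs (π j))) →
    (∀ j, (X j).L₀ = L₀ (π j) ∧ (X j).u₀ = u₀ (π j) ∧ (X j).u₁ = u₁ (π j)) →
    (∀ j x, (U.U ^ h j) x = g j * x) → (∀ j x, U.up (g j * x) = U.up x) →
    (∀ i, d (u₀ i) = !d (u₁ i) ∧ d (xs i) = !d (u₁ i)) →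
    PosU U.U L₀ (fun i => ∑ j with π j = i, h j) u₁ u₀ xs →
    TreeK ln cl u₁ u₀ xs rk →
    ∃ T : TourS B Bool, (∀ x, ∃ y, T.cls x = cl y) ∧ ∀ c : κ → Bool, ∃ T' : TourS B Bool,
      (∀ x, ∃ y, T'.cls x = cl y) ∧ ∀ (R : Type) [CommRing R] (V : Vd B R), (∀ j, V.chi (g j) = 1) → ∀ γ : Bool,
        T'.vol V γ = T.vol V γ + ∑ j, if c j then dvolw V (wcl cl d γ) (X j) (X' j) else 0

/-! ### Assembly -/

/-- CTX: the tree of the lines, cut into paths of length two (if the number of lines is even, one line is left out),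
and the frontiers. -/
def CtxS : Prop :=
  ∀ (Q : Type) [Group Q] (B : Lb.{0, 0} Q) (a : B.L) (eps : Q →* ℤˣ) (D : Subgroup Q) (z : Q) (k : ℕ)
    (H : Hyp B a eps D z k), 3 ≤ (Subgroup.zpowers (B.q a)).index →
    ∀ (c W : ℕ), Sink B a D W → Sep B a D c W → Lev B a D W → 4 * (c + k) ≤ W →
      ∃ (d cl : Q → Bool) (N : ℕ) (x : Fin N → Q) (b₁ b₂ : Fin N → B.L) (j : Fin N → ℕ) (F : Fin N → Finset Q)
        (rk : Fin N → ℕ), Ctx B a H.up D k c W d cl x b₁ b₂ j F ∧ 0 < N ∧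
        TreeK (fun y : Q => (y : Q ⧸ Subgroup.zpowers (B.q a))) cl x (fun i => x i * B.q (b₁ i))
          (fun i => (H.up.U ^ j i) (x i) * B.q (b₂ i)) rk

/-- NEAR: a window can meet translates of few others only. -/
def NearS : Prop :=
  ∀ (Q : Type) [Group Q] (B : Lb.{0, 0} Q) (a : B.L) (eps : Q →* ℤˣ) (D : Subgroup Q) (z : Q) (k : ℕ)
    (H : Hyp B a eps D z k) (c W : ℕ) (d cl : Q → Bool) (N : ℕ) (x : Fin N → Q) (b₁ b₂ : Fin N → B.L)
      (j : Fin N → ℕ) (F : Fin N → Finset Q) (rk : Fin N → ℕ), Ctx B a H.up D k c W d cl x b₁ b₂ j F →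
      TreeK (fun y : Q => (y : Q ⧸ Subgroup.zpowers (B.q a))) cl x (fun i => x i * B.q (b₁ i))
          (fun i => (H.up.U ^ j i) (x i) * B.q (b₂ i)) rk →
      ∀ i, ∃ s : Finset (Fin N), s.card ≤ (Nat.card B.L + 2) ^ 10 * k ∧ ∀ i', i' ∉ s → ∀ y ∈ F i, ∀ y' ∈ F i',
        ∀ l l' : ℤ, (H.up.U ^ l) y ≠ (H.up.U ^ l') y'

/-- HEART. -/
def HeartS : Prop :=
  ∀ (Q : Type) [Group Q] [Fintype Q] (B : Lb.{0, 0} Q) (a : B.L) (eps : Q →* ℤˣ) (D : Subgroup Q) (z : Q) (k : ℕ),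
    Hyp B a eps D z k → 3 ≤ (Subgroup.zpowers (B.q a)).index →
    ∀ (c W : ℕ), Sink B a D W → Sep B a D c W → Lev B a D W →
      ∀ (m : ℕ) (V : Vd B (ZMod m)), Odd m → V.chi z = 1 →
        (∀ p ∈ m.primeFactors, 4 * k < p ∧ 2 * m.primeFactors.card < p) →
        (∀ p, ∀ hp : p ∈ m.primeFactors, KapC (V.map (red (Nat.dvd_of_mem_primeFactors hp))) a eps) →
        needW (Nat.card B.L) (2 * m.primeFactors.card) k c ≤ W →
        (Nat.card B.L + 2) ^ 20 * k ^ 10 * W ^ 2 < orderOf (B.q a ^ k) →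
        ∃ T : TourS B Bool, ∀ γ : Bool, (∃ x, T.cls x = γ) → IsUnit (T.vol V γ)

/-- FACTOR2: one or two tours whose volumes are units give a listing sequence. -/
def FactorS : Prop :=
  ∀ (G : Type) [Group G] [Finite G] (Q : Type) [Group Q] [Fintype Q] (m : ℕ) (π : G →* Q)
    (s : Q →* G) (z : G) (chi : Q →* ZMod m) (ν : G → ZMod m),
    0 < m → (∀ q, π (s q) = q) → π z = 1 → orderOf z = m → (∀ g, π g = 1 → g ∈ Subgroup.zpowers z) →
    (∀ q, s q * z * (s q)⁻¹ = z ^ (chi q).val) → (∀ g, g = z ^ (ν g).val * s (π g)) →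
    ∀ (A : Set G) (lab : Q → G) (cl : Q → Bool), Subgroup.closure A = ⊤ → (∀ x, lab x ∈ A) →
      (Function.Bijective fun x => x * π (lab x)) → (∀ x, cl (x * π (lab x)) = cl x) →
      (∀ x y, cl x = cl y → ∃ n : ℕ, (fun t => t * π (lab t))^[n] x = y) →
      (∀ γ : Bool, (∃ x, cl x = γ) → IsUnit (∑ x, if cl x = γ then chi x * ν (lab x) else 0)) → Lst A

/-- SCALE: the choice of `a` and of the scale. `Y` is the normal subgroup of order `P`. -/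
def ScaleS : Prop :=
  ∃ c₀ : ℕ, ∀ (Q : Type) [Group Q] [Finite Q] (B : Lb.{0, 0} Q) (k r P : ℕ) (Y : Subgroup Q) (eps : Q →* ℤˣ),
    Finite B.L → 0 < k → Subgroup.closure (Set.range B.q) = ⊤ → P.Prime → ¬ P ∣ k → Y.Normal → Nat.card Y = P →
    (∀ y ∈ Y, ∀ g : Q, g * y * g⁻¹ = y ^ ((eps g : ℤˣ) : ℤ)) → ¬ P ^ 2 ∣ Nat.card Q →
    (∃ a₀ : B.L, P ∣ orderOf (B.q a₀)) → 2 ^ ((k + Nat.card B.L + r + 1) ^ c₀) ≤ P →
    ∃ a : B.L, P ∣ orderOf (B.q a) ∧ ∀ D : Subgroup Q, Nat.card D ∣ k → D.Normal →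
      ∃ c W : ℕ, Sink B a D W ∧ Sep B a D c W ∧ Lev B a D W ∧
        needW (Nat.card B.L) r k c ≤ W ∧ (Nat.card B.L + 2) ^ 20 * k ^ 10 * W ^ 2 < P

/-! ### Groups -/

/-- The structure of the groups (helper41's `GNE`: `N` cyclic normal of squarefree order, `C ≤ N` normal,
`g n g⁻¹ ∈ n ^ (eps g) C`, and `G` does not act by `eps` on any Sylow subgroup of `C`), with a margin for the primes. -/
structure GN {G : Type*} [Group G] (N C : Subgroup G) (eps : G →* ℤˣ) (k P : ℕ) : Prop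
    extends SQ2.H41.GNE N C eps k P where
  marg : ∀ p ∈ (Nat.card N).primeFactors, ((Nat.card G).primeFactorsList.length + 2) ^ 10 < p

/-- The normal closure of the elements `g a g⁻¹ a ^ (- eps g)`. -/
def Ecl {G : Type*} [Group G] (eps : G →* ℤˣ) (a : G) : Subgroup G :=
  Subgroup.normalClosure {x | ∃ g, x = g * a * g⁻¹ * (a ^ ((eps g : ℤˣ) : ℤ))⁻¹}

/-- KAP (`s`, `z`, `chi`, `ν` come from HDATA for `C` (that is, `C₁ = C ⊓ Ecl eps a` of the group)). -/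
def KapS : Prop :=
  ∀ (G : Type) [Group G] [Finite G] (C : Subgroup G) (_ : C.Normal) (eps : G ⧸ C →* ℤˣ) (A : Set G) (a : G)
    (s : G ⧸ C →* G) (z : G) (chi : G ⧸ C →* ZMod (Nat.card C)) (ν : G → ZMod (Nat.card C)),
    (∀ q, QuotientGroup.mk' C (s q) = q) → Subgroup.zpowers z = C → orderOf z = Nat.card C →
    (∀ q, s q * z * (s q)⁻¹ = z ^ (chi q).val) → (∀ g, g = z ^ (ν g).val * s (QuotientGroup.mk' C g)) →
    Subgroup.closure A = ⊤ → a ∈ A → Squarefree (Nat.card C) → Odd (Nat.card C) → eps (QuotientGroup.mk' C a) = 1 →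
    (∀ c ∈ C, (∀ g : G, g * c * g⁻¹ = c ^ ((eps (QuotientGroup.mk' C g) : ℤˣ) : ℤ)) → c = 1) →
    C ≤ Ecl (eps.comp (QuotientGroup.mk' C)) a →
    ∀ p, ∀ hp : p ∈ (Nat.card C).primeFactors,
      (red (Nat.dvd_of_mem_primeFactors hp) (chi (QuotientGroup.mk' C a)) ≠ 1 ∧ ∃ t ∈ A,
        red (Nat.dvd_of_mem_primeFactors hp) ((chi (QuotientGroup.mk' C a) - 1) * ν t -
          (chi (QuotientGroup.mk' C t) - 1) * ν a) ≠ 0) ∨
      (red (Nat.dvd_of_mem_primeFactors hp) (chi (QuotientGroup.mk' C a)) = 1 ∧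
        red (Nat.dvd_of_mem_primeFactors hp) (ν a) ≠ 0 ∧ ∃ t ∈ A,
        red (Nat.dvd_of_mem_primeFactors hp) (chi (QuotientGroup.mk' C t)) ≠
          (((eps (QuotientGroup.mk' C t) : ℤˣ) : ℤ) : ZMod p))

/-- DSTR: the quotient by `C₁ = C ⊓ Ecl eps a` (`Q = G / C₁`). -/
def DstrS : Prop :=
  ∀ (G : Type) [Group G] [Finite G] (N C : Subgroup G) (eps : G →* ℤˣ) (k P : ℕ), GN N C eps k P →
    ∀ (a : G) (C₁ : Subgroup G) (_ : C₁.Normal), C₁ = C ⊓ Ecl eps a → eps a = 1 →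
    ∃ (D : Subgroup (G ⧸ C₁)) (z : G ⧸ C₁) (u : G) (eps' : G ⧸ C₁ →* ℤˣ), D.Normal ∧ Nat.card D ∣ k ∧
      (∀ g, eps' (QuotientGroup.mk' C₁ g) = eps g) ∧ D ≤ eps'.ker ∧
      (∀ x, x * z * x⁻¹ = z ^ ((eps' x : ℤˣ) : ℤ)) ∧
      z⁻¹ * QuotientGroup.mk' C₁ a ∈ D ∧ u ∈ N ∧ QuotientGroup.mk' C₁ u = z

/-- GNQ: quotients. -/
def GnqS : Prop :=
  ∀ (G : Type) [Group G] [Finite G] (N C : Subgroup G) (eps : G →* ℤˣ) (k P : ℕ), GN N C eps k P → ∀ g ∈ C,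
    ∃ (_ : (Subgroup.zpowers g).Normal) (eps' : G ⧸ Subgroup.zpowers g →* ℤˣ),
      (∀ x, eps' (QuotientGroup.mk' (Subgroup.zpowers g) x) = eps x) ∧
      GN (N.map (QuotientGroup.mk' (Subgroup.zpowers g))) (C.map (QuotientGroup.mk' (Subgroup.zpowers g))) eps' k P

/-- The labels in a quotient. -/
def qLb {G : Type} [Group G] (M : Subgroup G) [M.Normal] (A : Set G) (hsym : ∀ x ∈ A, x⁻¹ ∈ A)
    (h1 : ∀ g ∈ A, g ∈ M → g = 1) : Lb.{0, 0} (G ⧸ M) where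
  L := {g : G // g ∈ A ∧ g ≠ 1}
  q := fun g => QuotientGroup.mk' M g.1
  inv := fun g => ⟨g.1⁻¹, hsym _ g.2.1, inv_ne_one.2 g.2.2⟩
  q_inv := fun _ => map_inv _ _
  ne_one := fun g h => g.2.2 (h1 _ g.2.1 ((QuotientGroup.eq_one_iff _).1 h))

/-- SMALL: at most two lines in the quotient `G / C₁`, `C₁ = C ⊓ Ecl eps a`, the order of `G` is even (paper 4109). It
may use everything that HEART may use. -/
def SmallS : Prop :=
  ∀ (G : Type) [Group G] [Finite G] (N C : Subgroup G) (eps : G →* ℤˣ) (k P : ℕ) (A : Set G)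
    (hsym : ∀ x ∈ A, x⁻¹ ∈ A) (C₁ : Subgroup G) (_ : C₁.Normal) (h1 : ∀ g ∈ A, g ∈ C₁ → g = 1)
    (a : (qLb C₁ A hsym h1).L) (eps' : G ⧸ C₁ →* ℤˣ) (D : Subgroup (G ⧸ C₁)) (z : G ⧸ C₁) (u : G) (c W : ℕ),
    Even (Nat.card G) → GN N C eps k P → Subgroup.closure A = ⊤ → (∀ g ∈ A, g ∈ C → g = 1) → P ∣ orderOf a.1 → C₁ = C ⊓ Ecl eps a.1 →
    (∀ g, eps' (QuotientGroup.mk' C₁ g) = eps g) → u ∈ N → QuotientGroup.mk' C₁ u = z →
    Hyp (qLb C₁ A hsym h1) a eps' D z k → (Subgroup.zpowers ((qLb C₁ A hsym h1).q a)).index ≤ 2 →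
    Sink (qLb C₁ A hsym h1) a D W → Sep (qLb C₁ A hsym h1) a D c W → Lev (qLb C₁ A hsym h1) a D W →
    needW (Nat.card (qLb C₁ A hsym h1).L) (2 * (Nat.card C₁).primeFactors.card) k c ≤ W →
    (Nat.card (qLb C₁ A hsym h1).L + 2) ^ 20 * k ^ 10 * W ^ 2 < orderOf ((qLb C₁ A hsym h1).q a ^ k) → Lst A

/-- STR: the structural theorem (uses HEART, SCALE, KAP, DSTR, HDATA, FACTOR2, SMALL). -/
def StrS : Prop :=
  ∃ c₀ : ℕ, ∀ (G : Type) [Group G] [Finite G] (N C : Subgroup G) (eps : G →* ℤˣ) (k P : ℕ) (A : Set G),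
    GN N C eps k P → (∀ x ∈ A, x⁻¹ ∈ A) → Subgroup.closure A = ⊤ → (∀ g ∈ A, g ∈ C → g = 1) →
    (∃ a ∈ A, P ∣ orderOf a) →
    2 ^ ((k + Nat.card A + (Nat.card G).primeFactorsList.length) ^ c₀) ≤ P → Lst A

/-- MAIN: induction on the order (LOOP removes the labels in `C`, SMALLGEN2 makes `A` small). -/
def MainS : Prop :=
  ∃ c₀ : ℕ, ∀ (G : Type) [Group G] [Finite G] (N C : Subgroup G) (eps : G →* ℤˣ) (k P : ℕ) (A : Set G),
    GN N C eps k P → (∀ x ∈ A, x⁻¹ ∈ A) → Subgroup.closure A = ⊤ → (∃ a ∈ A, P ∣ orderOf a) →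
    2 ^ ((k + (Nat.card G).primeFactorsList.length) ^ c₀) ≤ P → Lst A

end Pool.Agent.Lib.MP_688fd0_co.SQ3
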