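import Pool.Agent.Lib.MP_688fd0_co.SQ3.ConnL
import Pool.Agent.Lib.MP_688fd0_co.SQ2.Merge

/-!
MERGE: flat windows along a tree give a tour with classes; volumes.
-/

set_option autoImplicit false

namespace Pool.Agent.Lib.MP_688fd0_co.SQ3

open Pool.Agent.Lib.MP_688fd0_co.OSF Pool.Agent.Lib.MP_688fd0_co.SQ2
open Pool.Agent.Lib.MP_688fd0_co.OSF.H59 (dd fin_eq reads_iff vol_eq)
open Pool.Agent.MP_688fd0_co.OSF.H59 (darts Reads oldS newS wt)

universe u v w

theorem sum_sing {α β : Type*} (s : Finset α) (g : α → β) : ∑ x ∈ s, ({g x} : Multiset β) = s.val.map g := by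
  have h : s.val.map g = ((s.val.map g).map fun a => ({a} : Multiset β)).sum :=
    (Multiset.sum_map_singleton _).symm
  rw [h, Multiset.map_map]
  rfl

section window

variable {Q : Type u} [Group Q] {B : Lb.{u, v} Q}

/-- The start of the strand of `x` in its direction. -/
def sta (U : Up B) (d : Q → Bool) (n : ℕ) (x : Q) : Q := if d x then x else (U.U ^ n) x

/-- The end. -/
def exi (U : Up B) (d : Q → Bool) (n : ℕ) (x : Q) : Q := if d x then (U.U ^ n) x else x

/-- The old labels. -/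
def oldW (U : Up B) (d : Q → Bool) (n : ℕ) (x : Q) : List B.L := if d x then U.str n x else U.dn n x

/-- The new end. -/
def newE [DecidableEq Q] (U : Up B) (d : Q → Bool) (X : TW B) (n : ℕ) (xs x : Q) : Q :=
  if x = X.u₀ then (if d x then X.u₁ else xs)
  else if x = X.u₁ then (if d x then X.u₀ else (U.U ^ n) xs)
  else if x = xs then (if d x then (U.U ^ n) X.u₀ else (U.U ^ n) X.u₁)
  else exi U d n x

theorem src_dn' (U : Up B) (n : ℕ) (x : Q) :
    (src B ((U.U ^ n) x) (U.dn n x) : Multiset Q) = ∑ i ∈ Finset.range n, {(U.U ^ (i + 1)) x} := by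
  have h := U.src_dn n x
  have h1 : ({(U.U ^ n) x} : Multiset Q) + ∑ i ∈ Finset.range n, {(U.U ^ i) x} =
      ∑ i ∈ Finset.range n, {(U.U ^ (i + 1)) x} + {x} := by
    rw [add_comm, ← Finset.sum_range_succ (fun i => ({(U.U ^ i) x} : Multiset Q)), Finset.sum_range_succ']
    rfl
  rw [h1] at h
  exact add_right_cancel h

theorem verts_dn (U : Up B) (n : ℕ) (x : Q) :
    (B.verts ((U.U ^ n) x) (U.dn n x) : Multiset Q) = ∑ i ∈ Finset.range (n + 1), {(U.U ^ i) x} := by
  rw [verts_eq, U.fin_dn, ← Multiset.coe_add, src_dn', Finset.sum_range_succ']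
  rfl

theorem verts_str (U : Up B) (n : ℕ) (x : Q) :
    (B.verts x (U.str n x) : Multiset Q) = ∑ i ∈ Finset.range (n + 1), {(U.U ^ i) x} := by
  rw [verts_eq, U.fin_str, ← Multiset.coe_add, U.src_str, Finset.sum_range_succ]
  rfl

variable {U : Up B} {d : Q → Bool} {n : ℕ} {xs : Q}

theorem fin_old (x : Q) : B.fin (sta U d n x) (oldW U d n x) = exi U d n x := by
  unfold sta oldW exi
  rcases h : d x with _ | _
  · simp only [Bool.false_eq_true, if_false]
    exact U.fin_dn n x
  · simp only [if_true]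
    exact U.fin_str n x

theorem verts_old (x : Q) : (B.verts (sta U d n x) (oldW U d n x) : Multiset Q) =
    ∑ s ∈ Finset.range (n + 1), {(U.U ^ s) x} := by
  unfold sta oldW
  rcases h : d x with _ | _
  · simp only [Bool.false_eq_true, if_false]
    exact verts_dn U n x
  · simp only [if_true]
    exact verts_str U n x

theorem src_old (x : Q) : (src B (sta U d n x) (oldW U d n x) : Multiset Q) =
    (Finset.range n).val.map fun s => (U.U ^ (if d x then s else s + 1)) x := by
  unfold sta oldW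
  rcases h : d x with _ | _
  · simp only [Bool.false_eq_true, if_false]
    rw [src_dn', sum_sing]
  · simp only [if_true]
    rw [U.src_str, sum_sing]

variable [DecidableEq Q] {X : TW B}

omit [DecidableEq Q] in
theorem verts_revv (x y : Q) (l : List B.L) (h : B.fin x l = y) :
    (B.verts y (B.rev l) : Multiset Q) = B.verts x l := by
  rw [← h, verts_rev, Multiset.coe_reverse]

theorem Flat.ne₀ (hF : Flat U X n xs) : xs ≠ X.u₀ := (TW.mem_tok₀.1 hF.xs_mem).2.1
theorem Flat.ne₁ (hF : Flat U X n xs) : xs ≠ X.u₁ := (TW.mem_tok₀.1 hF.xs_mem).2.2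

theorem fin_new (hF : Flat U X n xs) (hd0 : d X.u₀ = !d X.u₁) (hd1 : d xs = !d X.u₁) {x : Q}
    (hx : x ∈ X.L₀) : B.fin (sta U d n x) (newW d X xs x) = newE U d X n xs x := by
  have n0 := hF.ne₀
  have n1 := hF.ne₁
  have hu := X.hu
  have hxs := TW.mem_tok₀.1 hF.xs_mem
  unfold sta newW newE
  by_cases h0 : x = X.u₀
  · subst h0
    rcases h : d X.u₀ with _ | _
    · simp only [Bool.false_eq_true, if_false, if_true, hu, n0.symm]
      rw [← hF.f_xs, ← X.path_fin xs hxs.1 hxs.2.1 hxs.2.2, fin_rev]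
    · simp only [if_true, if_pos]
      exact X.cup_fin
  by_cases h1 : x = X.u₁
  · subst h1
    rcases h : d X.u₁ with _ | _
    · simp only [Bool.false_eq_true, if_false, if_true, hu.symm]
      rw [← hF.w₀, X.cap_fin, hF.w₁]
    · simp only [if_true, hu.symm, if_false]
      conv_lhs => rw [← X.cup_fin]
      exact fin_rev _ _
  by_cases h2 : x = xs
  · subst h2
    rcases h : d x with _ | _
    · simp only [Bool.false_eq_true, if_false, if_true, h0, h1]
      rw [← hF.w₁]
      conv_lhs => rw [← X.cap_fin]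
      rw [fin_rev, hF.w₀]
    · simp only [if_true, h0, h1, if_false]
      rw [X.path_fin x hxs.1 hxs.2.1 hxs.2.2, hF.f_xs]
  · have hf := hF.f x (TW.mem_tok₀.2 ⟨hx, h0, h1⟩) h2
    have hp := X.path_fin x hx h0 h1
    unfold exi
    rcases h : d x with _ | _
    · simp only [Bool.false_eq_true, if_false, h0, h1, h2]
      rw [← hf, ← hp, fin_rev]
    · simp only [if_true, h0, h1, h2, if_false]
      rw [hp, hf]

/-- Sums over the bottom: the three special strands and the bystanders. -/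
theorem sum_L₀ {M : Type*} [AddCommMonoid M] (hF : Flat U X n xs) (g : Q → M) :
    ∑ x ∈ X.L₀, g x = ∑ x ∈ X.tok₀.erase xs, g x + g xs + g X.u₁ + g X.u₀ := by
  have e1 : ∑ x ∈ X.L₀, g x = ∑ x ∈ X.L₀.erase X.u₀, g x + g X.u₀ :=
    (Finset.sum_erase_add _ _ X.hu₀).symm
  have e2 : ∑ x ∈ X.L₀.erase X.u₀, g x = ∑ x ∈ X.tok₀, g x + g X.u₁ :=
    (Finset.sum_erase_add _ _ (Finset.mem_erase.2 ⟨X.hu.symm, X.hu₁⟩)).symm
  have e3 : ∑ x ∈ X.tok₀, g x = ∑ x ∈ X.tok₀.erase xs, g x + g xs :=
    (Finset.sum_erase_add _ _ hF.xs_mem).symm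
  rw [e1, e2, e3]

theorem ends_eq (hF : Flat U X n xs) (hd0 : d X.u₀ = !d X.u₁) (hd1 : d xs = !d X.u₁) :
    ∑ x ∈ X.L₀, ({exi U d n x} : Multiset Q) = ∑ x ∈ X.L₀, ({newE U d X n xs x} : Multiset Q) := by
  have n0 := hF.ne₀
  have n1 := hF.ne₁
  have hu := X.hu
  rw [sum_L₀ hF, sum_L₀ hF]
  have e1 : ∑ x ∈ X.tok₀.erase xs, ({newE U d X n xs x} : Multiset Q) =
      ∑ x ∈ X.tok₀.erase xs, ({exi U d n x} : Multiset Q) := by
    refine Finset.sum_congr rfl fun x hx => ?_
    obtain ⟨h1, h2⟩ := Finset.mem_erase.1 hx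
    obtain ⟨h3, h4, h5⟩ := TW.mem_tok₀.1 h2
    unfold newE
    rw [if_neg h4, if_neg h5, if_neg h1]
  rw [e1]
  rcases h : d X.u₁ with _ | _
  · have h0 : d X.u₀ = true := by rw [hd0, h]; rfl
    have h2 : d xs = true := by rw [hd1, h]; rfl
    unfold newE exi
    simp only [h0, h2, h, if_true, Bool.false_eq_true, if_false, n0, n1, hu.symm]
    abel
  · have h0 : d X.u₀ = false := by rw [hd0, h]; rfl
    have h2 : d xs = false := by rw [hd1, h]; rfl
    unfold newE exi
    simp only [h0, h2, h, if_true, Bool.false_eq_true, if_false, n0, n1, hu.symm]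
    abel

theorem verts_new (hF : Flat U X n xs) (hd0 : d X.u₀ = !d X.u₁) (hd1 : d xs = !d X.u₁) :
    ∑ x ∈ X.L₀, (B.verts (sta U d n x) (newW d X xs x) : Multiset Q) =
      ∑ x ∈ X.L₀, (B.verts (sta U d n x) (oldW U d n x) : Multiset Q) := by
  have n0 := hF.ne₀
  have n1 := hF.ne₁
  have hu := X.hu
  have hxs := TW.mem_tok₀.1 hF.xs_mem
  -- old
  have e0 : ∑ x ∈ X.L₀, (B.verts (sta U d n x) (oldW U d n x) : Multiset Q) = X.R + X.L₁.val := by
    have h1 : ∀ s, (im (U.U ^ s) X.L₀).val = ∑ x ∈ X.L₀, ({(U.U ^ s) x} : Multiset Q) := fun s => im_val _ _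
    rw [hF.reg, hF.top, ← Finset.sum_range_succ (fun i => (im (U.U ^ i) X.L₀).val)]
    simp only [h1]
    rw [Finset.sum_comm]
    exact Finset.sum_congr rfl fun x _ => verts_old x
  -- new
  have hcap : (B.verts X.w₀ X.cap : Multiset Q) =
      {X.w₀} + ((src B X.w₀ X.cap).tail : Multiset Q) + {X.w₁} := by
    rw [verts_eq, X.cap_fin, ← Multiset.coe_add, src_ne_nil _ X.cap_ne]
    rfl
  have hrest : ∑ x ∈ X.tok₀.erase xs, (B.verts (sta U d n x) (newW d X xs x) : Multiset Q) =
      ∑ x ∈ X.tok₀.erase xs, (B.verts x (X.path x) : Multiset Q) := by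
    refine Finset.sum_congr rfl fun x hx => ?_
    obtain ⟨h1, h2⟩ := Finset.mem_erase.1 hx
    obtain ⟨h3, h4, h5⟩ := TW.mem_tok₀.1 h2
    unfold newW sta
    rcases h : d x with _ | _
    · simp only [Bool.false_eq_true, if_false, h1, h4, h5]
      exact verts_revv _ _ _ (by rw [X.path_fin x h3 h4 h5, hF.f x h2 h1])
    · simp only [if_true, h4, h5, if_false]
  have hspec : (B.verts (sta U d n xs) (newW d X xs xs) : Multiset Q) +
      (B.verts (sta U d n X.u₁) (newW d X xs X.u₁) : Multiset Q) +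
      (B.verts (sta U d n X.u₀) (newW d X xs X.u₀) : Multiset Q) =
      (B.verts xs (X.path xs) : Multiset Q) + (B.verts X.w₀ X.cap : Multiset Q) +
      (B.verts X.u₀ X.cup : Multiset Q) := by
    rcases h : d X.u₁ with _ | _
    · have h0 : d X.u₀ = true := by rw [hd0, h]; rfl
      have h2 : d xs = true := by rw [hd1, h]; rfl
      unfold newW sta
      simp only [h0, h2, h, if_true, Bool.false_eq_true, if_false, n0, n1]
      rw [← hF.w₀]
    · have h0 : d X.u₀ = false := by rw [hd0, h]; rfl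
      have h2 : d xs = false := by rw [hd1, h]; rfl
      unfold newW sta
      simp only [h0, h2, h, if_true, Bool.false_eq_true, if_false, n0.symm, n1, hu, hu.symm]
      rw [← hF.w₁, verts_revv _ _ _ X.cap_fin, verts_revv _ _ _ X.cup_fin, ← hF.f_xs,
        verts_revv _ _ _ (X.path_fin xs hxs.1 hxs.2.1 hxs.2.2)]
      abel
  have hpath := tok_verts X
  rw [e0, sum_L₀ hF, hrest, add_assoc, add_assoc, ← add_assoc (B.verts (sta U d n xs) (newW d X xs xs) : Multiset Q),
    hspec, ← add_assoc, ← add_assoc, Finset.sum_erase_add _ _ hF.xs_mem, hpath, hcap, X.L₁_val]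
  unfold TW.R
  abel

omit [DecidableEq Q] in
theorem vol_revv {R : Type*} [CommRing R] (V : Vd B R) (x y : Q) (l : List B.L) (h : B.fin x l = y) :
    V.vol y (B.rev l) = - V.vol x l := by
  rw [← h, vol_rev]

/-- The volume of the new strands of a class. -/
theorem vol_new {R : Type*} [CommRing R] {κ : Type*} [DecidableEq κ] (V : Vd B R) (k : Q → κ) (γ : κ)
    (hF : Flat U X n xs) (hd0 : d X.u₀ = !d X.u₁) (hd1 : d xs = !d X.u₁) (hk0 : k X.u₀ = k X.u₁)
    (hk1 : k xs = k X.u₁) :
    ∑ x ∈ X.L₀, (if k x = γ then V.vol (sta U d n x) (newW d X xs x) else 0) =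
      ∑ x ∈ X.tok₀, wcl k d γ x * V.vol x (X.path x) +
        if k X.u₁ = γ then (if d X.u₀ then 1 else -1) * (V.vol X.u₀ X.cup + V.vol X.w₀ X.cap) else 0 := by
  have n0 := hF.ne₀
  have n1 := hF.ne₁
  have hu := X.hu
  have hxs := TW.mem_tok₀.1 hF.xs_mem
  have hrest : ∑ x ∈ X.tok₀.erase xs, (if k x = γ then V.vol (sta U d n x) (newW d X xs x) else 0) =
      ∑ x ∈ X.tok₀.erase xs, wcl k d γ x * V.vol x (X.path x) := by
    refine Finset.sum_congr rfl fun x hx => ?_
    obtain ⟨h1, h2⟩ := Finset.mem_erase.1 hx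
    obtain ⟨h3, h4, h5⟩ := TW.mem_tok₀.1 h2
    unfold wcl
    by_cases hk : k x = γ
    · rw [if_pos hk, if_pos hk]
      unfold newW sta
      rcases h : d x with _ | _
      · simp only [Bool.false_eq_true, if_false, h1, h4, h5]
        rw [vol_revv V x _ _ (by rw [X.path_fin x h3 h4 h5, hF.f x h2 h1])]
        ring
      · simp only [if_true, h4, h5, if_false]
        ring
    · rw [if_neg hk, if_neg hk, zero_mul]
  have hspec : (if k xs = γ then V.vol (sta U d n xs) (newW d X xs xs) else 0) +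
      (if k X.u₁ = γ then V.vol (sta U d n X.u₁) (newW d X xs X.u₁) else 0) +
      (if k X.u₀ = γ then V.vol (sta U d n X.u₀) (newW d X xs X.u₀) else 0) =
      wcl k d γ xs * V.vol xs (X.path xs) +
      if k X.u₁ = γ then (if d X.u₀ then 1 else -1) * (V.vol X.u₀ X.cup + V.vol X.w₀ X.cap) else 0 := by
    unfold wcl
    rw [hk0, hk1]
    by_cases hk : k X.u₁ = γ
    · simp only [if_pos hk]
      rcases h : d X.u₁ with _ | _
      · have h0 : d X.u₀ = true := by rw [hd0, h]; rfl
        have h2 : d xs = true := by rw [hd1, h]; rfl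
        unfold newW sta
        simp only [h0, h2, h, if_true, Bool.false_eq_true, if_false, n0, n1]
        rw [← hF.w₀]
        ring
      · have h0 : d X.u₀ = false := by rw [hd0, h]; rfl
        have h2 : d xs = false := by rw [hd1, h]; rfl
        unfold newW sta
        simp only [h0, h2, h, if_true, Bool.false_eq_true, if_false, n0.symm, n1, hu, hu.symm]
        rw [← hF.w₁, vol_revv V _ _ _ X.cap_fin, vol_revv V _ _ _ X.cup_fin, ← hF.f_xs,
          vol_revv V _ _ _ (X.path_fin xs hxs.1 hxs.2.1 hxs.2.2)]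
        ring
    · simp only [if_neg hk]
      ring
  rw [sum_L₀ hF, hrest, add_assoc, add_assoc, ← add_assoc (if k xs = γ then _ else _), hspec, ← add_assoc,
    Finset.sum_erase_add _ _ hF.xs_mem]

end window

end Pool.Agent.Lib.MP_688fd0_co.SQ3
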