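import Pool.Agent.Lib.MP_688fd0_co.SQ3.Up
import Pool.Agent.Lib.MP_688fd0_co.SQ2.Words

/-!
Windows extended straight up.
-/

set_option autoImplicit false

namespace Pool.Agent.Lib.MP_688fd0_co.SQ2.TW

open Pool.Agent.Lib.MP_688fd0_co.OSF Pool.Agent.Lib.MP_688fd0_co.SQ2 Pool.Agent.Lib.MP_688fd0_co.SQ3

universe u v w

variable {Q : Type u} [Group Q] [DecidableEq Q] {B : Lb.{u, v} Q}

/-- One step up on every strand. -/
def extU (X : TW B) (U : Up B) : TW B where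
  L₀ := X.L₀
  L₁ := im U.U X.L₁
  u₀ := X.u₀
  u₁ := X.u₁
  w₀ := U.U X.w₀
  w₁ := U.U X.w₁
  cup := X.cup
  cap := B.inv (U.up X.w₀) :: (X.cap ++ [U.up X.w₁])
  f := fun x => U.U (X.f x)
  path := fun x => X.path x ++ [U.up (X.f x)]
  hu₀ := X.hu₀
  hu₁ := X.hu₁
  hu := X.hu
  hw₀ := map_mem_im.2 X.hw₀
  hw₁ := map_mem_im.2 X.hw₁
  hw := fun h => X.hw (U.U.injective h)
  cup_fin := X.cup_fin
  cap_fin := by
    show B.fin (U.U X.w₀ * B.q (B.inv (U.up X.w₀))) (X.cap ++ [U.up X.w₁]) = _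
    rw [U.hU, B.q_inv, mul_inv_cancel_right, fin_append, X.cap_fin]
    show X.w₁ * B.q (U.up X.w₁) = _
    rw [U.hU]
  path_fin := fun x h h0 h1 => by
    rw [fin_append, X.path_fin x h h0 h1]
    show X.f x * B.q (U.up (X.f x)) = _
    rw [U.hU]
  f_mem := fun x h h0 h1 => by
    obtain ⟨a1, a2, a3⟩ := X.f_mem x h h0 h1
    exact ⟨map_mem_im.2 a1, fun h => a2 (U.U.injective h), fun h => a3 (U.U.injective h)⟩
  f_inj := fun x h h0 h1 y h' h0' h1' he => X.f_inj x h h0 h1 y h' h0' h1' (U.U.injective he)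
  f_surj := fun y h h0 h1 => by
    obtain ⟨x, a1, a2, a3, a4⟩ := X.f_surj (U.U⁻¹ y) (mem_im.1 h)
      (fun h => h0 (by rw [← h]; simp)) (fun h => h1 (by rw [← h]; simp))
    exact ⟨x, a1, a2, a3, by rw [a4]; simp⟩

theorem extU_R (X : TW B) (U : Up B) : (X.extU U).R = X.R + X.L₁.val := by
  have h1 : ∑ x ∈ X.tok₀, (src B x (X.path x ++ [U.up (X.f x)]) : Multiset Q) =
      ∑ x ∈ X.tok₀, (src B x (X.path x) : Multiset Q) + X.tok₁.val := by
    rw [← sum_singleton X.tok₁, ← X.sum_f, ← Finset.sum_add_distrib]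
    refine Finset.sum_congr rfl fun x hx => ?_
    rw [mem_tok₀] at hx
    rw [src_append, X.path_fin x hx.1 hx.2.1 hx.2.2]
    rfl
  have h2 : (src B (U.U X.w₀) (B.inv (U.up X.w₀) :: (X.cap ++ [U.up X.w₁]))).tail =
      (X.w₀ :: (src B X.w₀ X.cap).tail) ++ [X.w₁] := by
    show src B (U.U X.w₀ * B.q (B.inv (U.up X.w₀))) (X.cap ++ [U.up X.w₁]) = _
    rw [U.hU, B.q_inv, mul_inv_cancel_right, src_append, X.cap_fin, ← src_ne_nil _ X.cap_ne]
    rfl
  have e1 : (X.extU U).R = ∑ x ∈ X.tok₀, (src B x (X.path x ++ [U.up (X.f x)]) : Multiset Q) +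
      (B.verts X.u₀ X.cup : Multiset Q) +
      ((src B (U.U X.w₀) (B.inv (U.up X.w₀) :: (X.cap ++ [U.up X.w₁]))).tail : Multiset Q) := rfl
  rw [e1, h1, h2, L₁_val]
  unfold R
  have e2 : (((X.w₀ :: (src B X.w₀ X.cap).tail) ++ [X.w₁] : List Q) : Multiset Q) =
      {X.w₀} + ((src B X.w₀ X.cap).tail : Multiset Q) + {X.w₁} := rfl
  rw [e2]
  abel

/-- `n` steps up. -/
def extnU (X : TW B) (U : Up B) : ℕ → TW B
  | 0 => X
  | n + 1 => (X.extnU U n).extU U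

omit [DecidableEq Q] in
theorem extnU_w (X : TW B) (U : Up B) (k : ℕ) :
    (X.extnU U k).w₀ = (U.U ^ k) X.w₀ ∧ (X.extnU U k).w₁ = (U.U ^ k) X.w₁ := by
  induction k with
  | zero => exact ⟨rfl, rfl⟩
  | succ k ih =>
    constructor
    · show U.U (X.extnU U k).w₀ = _
      rw [ih.1, U.U_pow_succ']
    · show U.U (X.extnU U k).w₁ = _
      rw [ih.2, U.U_pow_succ']

omit [DecidableEq Q] in
theorem extnU_data (X : TW B) (U : Up B) (k : ℕ) :
    (X.extnU U k).L₀ = X.L₀ ∧ (X.extnU U k).u₀ = X.u₀ ∧ (X.extnU U k).u₁ = X.u₁ ∧ (X.extnU U k).cup = X.cup ∧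
    (∀ x, (X.extnU U k).f x = (U.U ^ k) (X.f x)) ∧
    (∀ x, (X.extnU U k).path x = X.path x ++ U.str k (X.f x)) := by
  induction k with
  | zero => exact ⟨rfl, rfl, rfl, rfl, fun x => rfl, fun x => by simp [TW.extnU]⟩
  | succ k ih =>
    obtain ⟨h1, h2, h3, h4, h5, h6⟩ := ih
    refine ⟨h1, h2, h3, h4, fun x => ?_, fun x => ?_⟩
    · show U.U ((X.extnU U k).f x) = _
      rw [h5, U.U_pow_succ']
    · show (X.extnU U k).path x ++ [U.up ((X.extnU U k).f x)] = _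
      rw [h6, h5, List.append_assoc, U.str_succ']

omit [DecidableEq Q] in
/-- The volume of the extended cap. -/
theorem extnU_cap {F : Type w} [CommRing F] (V : Vd B F) (X : TW B) (U : Up B) (k : ℕ) :
    V.vol (X.extnU U k).w₀ (X.extnU U k).cap =
      V.vol X.w₀ X.cap - V.vol X.w₀ (U.str k X.w₀) + V.vol X.w₁ (U.str k X.w₁) := by
  induction k with
  | zero => show V.vol X.w₀ X.cap = V.vol X.w₀ X.cap - 0 + 0; ring
  | succ k ih =>
    obtain ⟨w0, w1⟩ := extnU_w X U k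
    have e1 : (X.extnU U (k + 1)).cap = B.inv (U.up (X.extnU U k).w₀) ::
      ((X.extnU U k).cap ++ [U.up (X.extnU U k).w₁]) := rfl
    have e2 : (X.extnU U (k + 1)).w₀ = U.U (X.extnU U k).w₀ := rfl
    rw [e1, e2]
    show V.chi (U.U (X.extnU U k).w₀) * V.n (B.inv (U.up (X.extnU U k).w₀)) +
      V.vol (U.U (X.extnU U k).w₀ * B.q (B.inv (U.up (X.extnU U k).w₀)))
        ((X.extnU U k).cap ++ [U.up (X.extnU U k).w₁]) = _
    rw [U.hU, B.q_inv, mul_inv_cancel_right, vol_append, (X.extnU U k).cap_fin, ih, U.str_succ' k X.w₀,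
      U.str_succ' k X.w₁, vol_append, vol_append, U.fin_str, U.fin_str, w0, w1]
    set y := (U.U ^ k) X.w₀ with hy
    set y' := (U.U ^ k) X.w₁ with hy'
    show V.chi (y * B.q (U.up y)) * V.n (B.inv (U.up y)) + (_ + (V.chi y' * V.n (U.up y') + 0)) =
      _ - (_ + (V.chi y * V.n (U.up y) + 0)) + (_ + (V.chi y' * V.n (U.up y') + 0))
    rw [V.n_inv, map_mul V.chi y]
    have h1 : V.chi (B.q (U.up y)) * V.chi (B.q (U.up y))⁻¹ = 1 := by rw [← map_mul, mul_inv_cancel, map_one]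
    linear_combination (-(V.chi y * V.n (U.up y))) * h1

end Pool.Agent.Lib.MP_688fd0_co.SQ2.TW
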