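import Pool.Agent.Lib.MP_688fd0_co.SQ3.TWU

/-!
WORDS: the words of the hole puzzle (`SQ2/V/Defs.lean`) are through windows, in the language of `Up`.
-/

set_option autoImplicit false

namespace Pool.Agent.Lib.MP_688fd0_co.SQ3

open Pool.Agent.Lib.MP_688fd0_co.OSF Pool.Agent.Lib.MP_688fd0_co.SQ2
open V (Puz)

universe u v w

/-- A realisation of a puzzle: the strand `s` at level `t` is the vertex `U ^ t (g s)`; the gadget of the rung `r` is
available at the levels `t` with `t % e = lev r`, its height is `H r`. -/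
structure Real {S R : Type} [Fintype S] [DecidableEq S] (P : Puz S R) {Q : Type u} [Group Q] [DecidableEq Q]
    (B : Lb.{u, v} Q) (U : Up B) where
  g : S → Q
  inj : Function.Injective g
  e : ℕ
  he : 0 < e
  lev : R → ℕ
  lev_lt : ∀ r, lev r < e
  H : R → ℕ
  gad : R → ℕ → TW B
  L₀ : ∀ r t, t % e = lev r → (gad r t).L₀ = Finset.univ.map ⟨fun s => (U.U ^ t) (g s), fun _ _ h => inj ((U.U ^ t).injective h)⟩
  L₁ : ∀ r t, t % e = lev r →
    (gad r t).L₁ = Finset.univ.map ⟨fun s => (U.U ^ (t + H r)) (g s), fun _ _ h => inj ((U.U ^ (t + H r)).injective h)⟩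
  u₀ : ∀ r t, t % e = lev r → (gad r t).u₀ = (U.U ^ t) (g (P.x r))
  u₁ : ∀ r t, t % e = lev r → (gad r t).u₁ = (U.U ^ t) (g (P.y r))
  w₀ : ∀ r t, t % e = lev r → (gad r t).w₀ = (U.U ^ (t + H r)) (g (P.x (P.tau r)))
  w₁ : ∀ r t, t % e = lev r → (gad r t).w₁ = (U.U ^ (t + H r)) (g (P.y (P.tau r)))
  f : ∀ r t, t % e = lev r → ∀ s, ¬ P.On r s →
    (gad r t).f ((U.U ^ t) (g s)) = (U.U ^ (t + H r)) (g (P.T r s))
  reg : ∀ r t, t % e = lev r → (gad r t).R = ∑ i ∈ Finset.Ico t (t + H r),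
    (Finset.univ.map ⟨fun s => (U.U ^ i) (g s), fun _ _ h => inj ((U.U ^ i).injective h)⟩ : Finset Q).val

namespace Real

variable {S R : Type} [Fintype S] [DecidableEq S] {P : Puz S R} {Q : Type u} [Group Q] [DecidableEq Q]
  {B : Lb.{u, v} Q} {U : Up B} (Z : Real P B U)

/-- The strand `s` at level `t`. -/
def vt (s : S) (t : ℕ) : Q := (U.U ^ t) (Z.g s)

/-- The frontier at level `t`. -/
def Fr (t : ℕ) : Finset Q := Finset.univ.map ⟨fun s => (U.U ^ t) (Z.g s), fun _ _ h => Z.inj ((U.U ^ t).injective h)⟩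

theorem vt_inj {s s' : S} {t : ℕ} (h : Z.vt s t = Z.vt s' t) : s = s' := Z.inj ((U.U ^ t).injective h)

theorem mem_Fr {t : ℕ} {x : Q} : x ∈ Z.Fr t ↔ ∃ s, Z.vt s t = x := by
  unfold Fr
  rw [Finset.mem_map]
  constructor
  · rintro ⟨s, _, h⟩; exact ⟨s, h⟩
  · rintro ⟨s, h⟩; exact ⟨s, Finset.mem_univ _, h⟩

theorem vt_mem (s : S) (t : ℕ) : Z.vt s t ∈ Z.Fr t := Z.mem_Fr.2 ⟨s, rfl⟩

theorem vt_add (s : S) (t k : ℕ) : Z.vt s (t + k) = (U.U ^ k) (Z.vt s t) := by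
  unfold vt; rw [U.U_pow_add]

theorem vt_succ (s : S) (t : ℕ) : Z.vt s (t + 1) = U.U (Z.vt s t) := by
  rw [vt_add, pow_one]

theorem im_Fr (t k : ℕ) : im (U.U ^ k) (Z.Fr t) = Z.Fr (t + k) := by
  ext x
  rw [mem_im, mem_Fr, mem_Fr]
  constructor
  · rintro ⟨s, h⟩; exact ⟨s, by rw [vt_add, h]; simp⟩
  · rintro ⟨s, h⟩; exact ⟨s, by rw [← h, vt_add]; simp⟩

/-- The window `X` ends at the frontier `t` with the cap `r`. -/
structure Ends (X : TW B) (t : ℕ) (r : R) : Prop where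
  L₁ : X.L₁ = Z.Fr t
  w₀ : X.w₀ = Z.vt (P.x r) t
  w₁ : X.w₁ = Z.vt (P.y r) t

variable {Z}

theorem Ends.ext {X : TW B} {t : ℕ} {r : R} (h : Z.Ends X t r) (k : ℕ) : Z.Ends (X.extnU U k) (t + k) r := by
  induction k with
  | zero => exact h
  | succ k ih =>
    have hk := Z.im_Fr (t + k) 1
    rw [pow_one] at hk
    refine ⟨?_, ?_, ?_⟩
    · show im U.U (X.extnU U k).L₁ = _
      rw [ih.L₁, hk]; rfl
    · show U.U (X.extnU U k).w₀ = _
      rw [ih.w₀, show t + (k + 1) = t + k + 1 by omega, Z.vt_succ]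
    · show U.U (X.extnU U k).w₁ = _
      rw [ih.w₁, show t + (k + 1) = t + k + 1 by omega, Z.vt_succ]

theorem Ends.ext_R {X : TW B} {t : ℕ} {r : R} (h : Z.Ends X t r) (k : ℕ) :
    (X.extnU U k).R = X.R + ∑ i ∈ Finset.Ico t (t + k), (Z.Fr i).val := by
  induction k with
  | zero => rw [add_zero, Finset.Ico_self, Finset.sum_empty, add_zero]; rfl
  | succ k ih =>
    show ((X.extnU U k).extU U).R = _
    rw [TW.extU_R, ih, (h.ext k).L₁, show t + (k + 1) = t + k + 1 by omega,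
      Finset.sum_Ico_succ_top (by omega), add_assoc]

/-- One step: wait until level `t`, jump, gadget. -/
theorem step {X : TW B} {t₀ : ℕ} {r : R} (hX : Z.Ends X t₀ r) {r' : R} {v : S} (hadj : P.Adj r r' v) {t : ℕ}
    (ht₀ : t₀ ≤ t) (ht : t % Z.e = Z.lev r') :
    ∃ X' : TW B, X'.L₀ = X.L₀ ∧ X'.u₀ = X.u₀ ∧ X'.u₁ = X.u₁ ∧ X'.cup = X.cup ∧ X'.cap = (Z.gad r' t).cap ∧
      Z.Ends X' (t + Z.H r') (P.tau r') ∧
      X'.R = X.R + ∑ i ∈ Finset.Ico t₀ (t + Z.H r'), (Z.Fr i).val ∧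
      (∀ x s, ¬ P.On r s → X.f x = Z.vt s t₀ → X'.f x = Z.vt (P.T r' (P.J r r' v s)) (t + Z.H r')) ∧
      ∀ {F : Type w} [CommRing F] (V : Vd B F),
        (∀ x ∈ X.tok₀, ∀ s, ¬ P.On r s → X.f x = Z.vt s t₀ → V.vol x (X'.path x) = V.vol x (X.path x) +
          V.vol (Z.vt s t₀) (U.str (t - t₀) (Z.vt s t₀)) +
          (if s = P.oth r' v then
            (if v = P.x r' then - V.vol (Z.vt (P.x r') t) (Z.gad r' t).cup
              else V.vol (Z.vt (P.x r') t) (Z.gad r' t).cup) +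
            (if v = P.x r then V.vol X.w₀ X.cap - V.vol (Z.vt (P.x r) t₀) (U.str (t - t₀) (Z.vt (P.x r) t₀)) +
              V.vol (Z.vt (P.y r) t₀) (U.str (t - t₀) (Z.vt (P.y r) t₀))
              else -(V.vol X.w₀ X.cap - V.vol (Z.vt (P.x r) t₀) (U.str (t - t₀) (Z.vt (P.x r) t₀)) +
              V.vol (Z.vt (P.y r) t₀) (U.str (t - t₀) (Z.vt (P.y r) t₀)))) else 0) +
          V.vol (Z.vt (P.J r r' v s) t) ((Z.gad r' t).path (Z.vt (P.J r r' v s) t))) ∧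
        V.vol X'.w₀ X'.cap = V.vol (Z.gad r' t).w₀ (Z.gad r' t).cap := by
  obtain ⟨k, rfl⟩ : ∃ k, t = t₀ + k := ⟨t - t₀, by omega⟩
  have hk : t₀ + k - t₀ = k := by omega
  rw [hk]
  set t := t₀ + k with ht'
  -- the extended window
  set X₁ := X.extnU U k with hX₁
  have hE : Z.Ends X₁ t r := hX.ext k
  obtain ⟨d1, d2, d3, d4, d5, d6⟩ := TW.extnU_data X U k
  set Y := Z.gad r' t with hY
  have hYL₀ : Y.L₀ = Z.Fr t := Z.L₀ r' t ht
  have hYL₁ : Y.L₁ = Z.Fr (t + Z.H r') := Z.L₁ r' t ht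
  have hYu₀ : Y.u₀ = Z.vt (P.x r') t := Z.u₀ r' t ht
  have hYu₁ : Y.u₁ = Z.vt (P.y r') t := Z.u₁ r' t ht
  have hYw₀ : Y.w₀ = Z.vt (P.x (P.tau r')) (t + Z.H r') := Z.w₀ r' t ht
  have hYw₁ : Y.w₁ = Z.vt (P.y (P.tau r')) (t + Z.H r') := Z.w₁ r' t ht
  obtain ⟨hon, hon', hne⟩ := hadj
  -- the oriented windows
  obtain ⟨X₂, x1, x2, x3, x4, x5, x6, x7, x8, x9, x10, x11⟩ : ∃ X₂ : TW B, X₂.L₀ = X.L₀ ∧ X₂.L₁ = Z.Fr t ∧
      X₂.u₀ = X.u₀ ∧ X₂.u₁ = X.u₁ ∧ X₂.cup = X.cup ∧ X₂.w₀ = Z.vt v t ∧ X₂.w₁ = Z.vt (P.oth r v) t ∧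
      X₂.R = X₁.R ∧ (∀ x, X₂.f x = X₁.f x) ∧ (∀ x, X₂.path x = X₁.path x) ∧
      (∀ {F : Type w} [CommRing F] (V : Vd B F), V.vol X₂.w₀ X₂.cap =
        if v = P.x r then V.vol X₁.w₀ X₁.cap else - V.vol X₁.w₀ X₁.cap) := by
    by_cases h : v = P.x r
    · refine ⟨X₁, d1, hE.L₁, d2, d3, d4, by rw [hE.w₀, h], ?_, rfl, fun _ => rfl, fun _ => rfl, ?_⟩
      · rw [hE.w₁]; unfold Puz.oth; rw [if_pos h]
      · intro F _ V; rw [if_pos h]
    · have h2 : v = P.y r := by rcases hon with h1 | h1; exact absurd h1 h; exact h1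
      refine ⟨X₁.flipCap, d1, hE.L₁, d2, d3, d4, ?_, ?_, TW.flipCap_R _, fun _ => rfl, fun _ => rfl, ?_⟩
      · show X₁.w₁ = _; rw [hE.w₁, h2]
      · show X₁.w₀ = _; rw [hE.w₀]; unfold Puz.oth; rw [if_neg h]
      · intro F _ V
        rw [if_neg h]
        show V.vol X₁.w₁ (B.rev X₁.cap) = _
        conv_lhs => rw [← X₁.cap_fin]
        exact vol_rev V _ _
  obtain ⟨Y₂, y1, y2, y3, y4, y5, y6, y7, y8, y9, y10, y11⟩ : ∃ Y₂ : TW B, Y₂.L₀ = Z.Fr t ∧ Y₂.L₁ = Y.L₁ ∧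
      Y₂.w₀ = Y.w₀ ∧ Y₂.w₁ = Y.w₁ ∧ Y₂.cap = Y.cap ∧ Y₂.u₀ = Z.vt (P.oth r' v) t ∧ Y₂.u₁ = Z.vt v t ∧
      Y₂.R = Y.R ∧ (∀ x, Y₂.f x = Y.f x) ∧ (∀ x, Y₂.path x = Y.path x) ∧
      (∀ {F : Type w} [CommRing F] (V : Vd B F), V.vol Y₂.u₀ Y₂.cup =
        if v = P.x r' then - V.vol (Z.vt (P.x r') t) Y.cup else V.vol (Z.vt (P.x r') t) Y.cup) := by
    by_cases h : v = P.x r'
    · refine ⟨Y.flipCup, hYL₀, rfl, rfl, rfl, rfl, ?_, ?_, TW.flipCup_R _, fun _ => rfl, fun _ => rfl, ?_⟩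
      · show Y.u₁ = _; rw [hYu₁]; unfold Puz.oth; rw [if_pos h]
      · show Y.u₀ = _; rw [hYu₀, h]
      · intro F _ V
        rw [if_pos h]
        show V.vol Y.u₁ (B.rev Y.cup) = _
        conv_lhs => rw [← Y.cup_fin]
        rw [vol_rev V _ _, hYu₀]
    · have h2 : v = P.y r' := by rcases hon' with h1 | h1; exact absurd h1 h; exact h1
      refine ⟨Y, hYL₀, rfl, rfl, rfl, rfl, ?_, ?_, rfl, fun _ => rfl, fun _ => rfl, ?_⟩
      · rw [hYu₀]; unfold Puz.oth; rw [if_neg h]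
      · rw [hYu₁, h2]
      · intro F _ V; rw [if_neg h, hYu₀]
  have c1 : X₂.L₁ = Y₂.L₀ := by rw [x2, y1]
  have c2 : X₂.w₀ = Y₂.u₁ := by rw [x6, y7]
  have c3 : X₂.w₁ ≠ Y₂.u₀ := by rw [x7, y6]; exact fun h => hne (Z.vt_inj h)
  have hpos : ∀ x s, ¬ P.On r s → X.f x = Z.vt s t₀ →
      TW.jump X₂ Y₂ (X₂.f x) = Z.vt (P.J r r' v s) t := by
    intro x s hs hx
    have h1 : X₂.f x = Z.vt s t := by rw [x9, d5, hx, ht', Z.vt_add]
    unfold TW.jump
    rw [h1, y6, x7]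
    have hs2 : s ≠ P.oth r v := by
      intro h
      apply hs
      rw [h]
      unfold Puz.oth Puz.On
      by_cases hv : v = P.x r
      · rw [if_pos hv]; exact Or.inr rfl
      · rw [if_neg hv]; exact Or.inl rfl
    by_cases h : s = P.oth r' v
    · rw [if_pos (by rw [h])]
      unfold Puz.J
      rw [h, Equiv.swap_apply_left]
    · rw [if_neg (fun h' => h (Z.vt_inj h'))]
      unfold Puz.J
      rw [Equiv.swap_apply_of_ne_of_ne h hs2]
  refine ⟨X₂.comp Y₂ c1 c2 c3, x1, x3, x4, x5, y5, ⟨?_, ?_, ?_⟩, ?_, ?_, ?_⟩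
  · show Y₂.L₁ = _; rw [y2, hYL₁]
  · show Y₂.w₀ = _; rw [y3, hYw₀]
  · show Y₂.w₁ = _; rw [y4, hYw₁]
  · rw [TW.comp_R, x8, y8, hX₁, hX.ext_R k, hY, Z.reg r' t ht, add_assoc]
    congr 1
    exact Finset.sum_Ico_consecutive _ (by omega) (by omega)
  · intro x s hs hx
    show Y₂.f (TW.jump X₂ Y₂ (X₂.f x)) = _
    rw [hpos x s hs hx, y9]
    refine Z.f r' t ht _ ?_
    -- the new position is not an end of r'
    intro hon2
    have hs2 : s ≠ P.oth r v := by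
      intro h
      apply hs
      rw [h]
      unfold Puz.oth Puz.On
      by_cases hv : v = P.x r
      · rw [if_pos hv]; exact Or.inr rfl
      · rw [if_neg hv]; exact Or.inl rfl
    have hsv : s ≠ v := fun h => hs (by rw [h]; exact hon)
    have honc : ∀ u, P.On r' u → u = v ∨ u = P.oth r' v := by
      intro u hu
      unfold Puz.oth
      by_cases hv : v = P.x r'
      · rw [if_pos hv]
        rcases hu with hu | hu
        · left; rw [hu, hv]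
        · right; exact hu
      · rw [if_neg hv]
        have h2 : v = P.y r' := by rcases hon' with h1 | h1; exact absurd h1 hv; exact h1
        rcases hu with hu | hu
        · right; exact hu
        · left; rw [hu, h2]
    have hov : P.oth r v ≠ v := by
      unfold Puz.oth
      by_cases hv : v = P.x r
      · rw [if_pos hv, hv]; exact (P.ne r).symm
      · rw [if_neg hv]; exact fun h => hv h.symm
    by_cases h : s = P.oth r' v
    · unfold Puz.J at hon2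
      rw [h, Equiv.swap_apply_left] at hon2
      rcases honc _ hon2 with h3 | h3
      · exact hov h3
      · exact hne h3
    · unfold Puz.J at hon2
      rw [Equiv.swap_apply_of_ne_of_ne h hs2] at hon2
      rcases honc _ hon2 with h3 | h3
      · exact hsv h3
      · exact h h3
  · intro F _ V
    refine ⟨?_, ?_⟩
    · intro x hx s hs hxs
      show V.vol x (X₂.path x ++ (TW.jumpl X₂ Y₂ (X₂.f x) ++ Y₂.path (TW.jump X₂ Y₂ (X₂.f x)))) = _
      have hxm := TW.mem_tok₀.1 hx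
      have hfin : B.fin x (X₂.path x) = X₂.f x := by
        refine X₂.path_fin x (x1 ▸ hxm.1) (x3 ▸ hxm.2.1) (x4 ▸ hxm.2.2)
      have h1 : X₂.f x = Z.vt s t := by rw [x9, d5, hxs, ht', Z.vt_add]
      rw [vol_append, vol_append, hfin, TW.jump_fin X₂ Y₂ c2, hpos x s hs hxs, y10, x10, d6, vol_append,
        X.path_fin x hxm.1 hxm.2.1 hxm.2.2, hxs, ← add_assoc]
      congr 1
      congr 1
      unfold TW.jumpl
      rw [h1, y6]
      by_cases h : s = P.oth r' v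
      · rw [if_pos (by rw [h]), if_pos h, vol_append]
        have e1 : V.vol (Z.vt s t) Y₂.cup = V.vol Y₂.u₀ Y₂.cup := by rw [y6, h]
        have e2 : B.fin (Z.vt s t) Y₂.cup = X₂.w₀ := by rw [c2, ← Y₂.cup_fin, y6, h]
        rw [e1, e2, y11 V, x11 V, hX₁, TW.extnU_cap V X U k, hX.w₀, hX.w₁]
      · rw [if_neg (fun h' => h (Z.vt_inj h')), if_neg h]
        rfl
    · show V.vol Y₂.w₀ Y₂.cap = _
      rw [y3, y5]

end Real

end Pool.Agent.Lib.MP_688fd0_co.SQ3
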